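import Pool.Agent.X284.AZ.Blk

/-!
Large values of the mollifier, from a vertical line to the half plane on its right.
-/

set_option autoImplicit false

open Complex Metric MeasureTheory Set Filter Topology

namespace Pool.Agent.X284.AZ

open DH31

lemma dp_trivial {σ : ℝ} (hσ : 0 ≤ σ) (X j : ℕ) (t : ℝ) :
    ‖dp (fun n => bm σ X j n) (2 ^ (j + 1)) t‖ ≤ 2 * (2 : ℝ) ^ j := by
  unfold dp
  have key : ∀ n ∈ Finset.Icc 1 (2 ^ (j + 1)), ‖bm σ X j n * (n : ℂ) ^ (-(t : ℂ) * I)‖ ≤ (1 : ℝ) := by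
    intro n hn
    rw [Finset.mem_Icc] at hn
    rw [norm_mul, Complex.norm_natCast_cpow_of_pos (by omega)]
    have h1 : (-(t : ℂ) * I).re = 0 := by simp
    rw [h1, Real.rpow_zero, mul_one]
    refine (bm_norm_le' n hn.1).trans ?_
    exact Real.rpow_le_one_of_one_le_of_nonpos (by exact_mod_cast hn.1) (by linarith)
  refine (norm_sum_le_of_le _ key).trans ?_
  rw [Finset.sum_const, Nat.card_Icc, nsmul_eq_mul, mul_one]
  rw [Nat.add_sub_cancel, pow_succ]
  push_cast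
  linarith

/-- the number of large values of the mollifier on a vertical line -/
theorem bigM {κ η : ℝ} (hκ : 0 < κ) (hκ1 : κ ≤ 1) (hη : 0 < η) :
    ∃ C : ℝ, 0 < C ∧ ∃ T0 : ℝ, ∀ T : ℝ, T0 ≤ T → ∀ σ : ℝ, 0 ≤ σ → σ ≤ 1 → ∀ N0 : ℕ,
      (N0 : ℝ) ≤ 2 * T → ∀ S : Finset ℕ, S ⊆ Finset.range N0 → ∀ t : ℕ → ℝ,
      (∀ n ∈ S, t n ∈ Icc (n : ℝ) (n + 1)) →
      (∀ n ∈ S, T ^ η ≤ ‖MX ⌊T ^ κ⌋₊ ((σ : ℂ) + (t n) * I)‖) →
      (S.card : ℝ) ≤ C * T ^ (2 - 2 * σ + 7 * κ) := by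
  classical
  obtain ⟨C, hC, T1, hb⟩ := blockM hκ hκ1 (show 0 < η / 2 by positivity)
  have ev1 := ev_log 6 (η / 2) 1 (by positivity)
  have ev2 := ev_log 3 κ 1 hκ
  have ev3 : ∀ᶠ T : ℝ in atTop, 1 ≤ Real.log T := Real.tendsto_log_atTop.eventually_ge_atTop _
  obtain ⟨T0, hT0⟩ := Filter.eventually_atTop.1 ((ev1.and ev2).and
    (ev3.and (eventually_ge_atTop (max T1 1 : ℝ))))
  refine ⟨C, hC, T0, ?_⟩
  intro T hT σ hσ0 hσ1 N0 hN0 S hS t ht hlarge
  obtain ⟨⟨e1, e2⟩, ⟨e3, e4⟩⟩ := hT0 T hT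
  have hT1 : T1 ≤ T := (le_max_left _ _).trans e4
  have hT1' : 1 ≤ T := (le_max_right _ _).trans e4
  have hTpos : 0 < T := by linarith
  rw [pow_one] at e1 e2
  set X := ⌊T ^ κ⌋₊ with hX
  have hTκ1 : 1 ≤ T ^ κ := Real.one_le_rpow hT1' hκ.le
  have hX1 : 1 ≤ X := Nat.le_floor (by simpa using hTκ1)
  have hXle : (X : ℝ) ≤ T ^ κ := Nat.floor_le (by positivity)
  set J := Nat.log 2 X + 1 with hJ
  have hXJ : X < 2 ^ J := Nat.lt_pow_succ_log_self (by norm_num) X
  have hJ1 : (1 : ℝ) ≤ J := by rw [hJ]; push_cast; linarith [Nat.cast_nonneg (α := ℝ) (Nat.log 2 X)]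
  have hJpos : 0 < (J : ℝ) := by linarith
  have hJle : (J : ℝ) ≤ 3 * Real.log T := by
    have h1 : (2 : ℝ) ^ (Nat.log 2 X) ≤ T ^ κ := by
      have : 2 ^ (Nat.log 2 X) ≤ X := Nat.pow_log_le_self 2 (by omega)
      have h2 : (2 : ℝ) ^ (Nat.log 2 X) ≤ X := by exact_mod_cast this
      linarith
    have h2 := Real.log_le_log (by positivity) h1
    rw [Real.log_pow, Real.log_rpow hTpos] at h2
    have h3 : 1 / 2 ≤ Real.log 2 := by have := Real.log_two_gt_d9; linarith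
    have h4 : (Nat.log 2 X : ℝ) * (1 / 2) ≤ Nat.log 2 X * Real.log 2 := by gcongr
    have h5 : κ * Real.log T ≤ 1 * Real.log T := by gcongr
    rw [hJ]; push_cast
    linarith
  let Sj : ℕ → Finset ℕ := fun j => S.filter fun n =>
    T ^ η / J ≤ ‖dp (fun n => bm σ X j n) (2 ^ (j + 1)) (t n)‖
  have hTη : 6 * Real.log T * T ^ (η / 2) ≤ T ^ η := by
    have : T ^ η = T ^ (η / 2) * T ^ (η / 2) := by rw [← Real.rpow_add hTpos]; congr 1; ring
    rw [this]; gcongr
  have hTη2 : 1 ≤ T ^ (η / 2) := Real.one_le_rpow hT1' (by positivity)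
  have hVJ : 2 * T ^ (η / 2) ≤ T ^ η / J := by
    rw [le_div_iff₀ hJpos]
    calc 2 * T ^ (η / 2) * J ≤ 2 * T ^ (η / 2) * (3 * Real.log T) := by gcongr
      _ = 6 * Real.log T * T ^ (η / 2) := by ring
      _ ≤ T ^ η := hTη
  have hcover : S ⊆ (Finset.range J).biUnion Sj := by
    intro n hn
    have h1 := hlarge n hn
    rw [bm_dyadic hXJ] at h1
    have hex : ∃ j < J, T ^ η / J ≤ ‖dp (fun n => bm σ X j n) (2 ^ (j + 1)) (t n)‖ := by
      by_contra hcon
      push Not at hcon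
      have h8 : ‖∑ j ∈ Finset.range J, dp (fun n => bm σ X j n) (2 ^ (j + 1)) (t n)‖ < T ^ η := by
        calc _ ≤ ∑ j ∈ Finset.range J, ‖dp (fun n => bm σ X j n) (2 ^ (j + 1)) (t n)‖ :=
              norm_sum_le _ _
          _ < ∑ j ∈ Finset.range J, T ^ η / J := by
            refine Finset.sum_lt_sum_of_nonempty ⟨0, Finset.mem_range.2 (by omega)⟩ fun j hj => ?_
            exact hcon j (Finset.mem_range.1 hj)
          _ = T ^ η := by
            rw [Finset.sum_const, Finset.card_range, nsmul_eq_mul]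
            field_simp
      linarith
    obtain ⟨j, hj, hdj⟩ := hex
    simp only [Finset.mem_biUnion, Finset.mem_range]
    exact ⟨j, hj, Finset.mem_filter.2 ⟨hn, hdj⟩⟩
  have hbd : ∀ j ∈ Finset.range J, ((Sj j).card : ℝ) ≤ C * T ^ (2 - 2 * σ + 6 * κ) := by
    intro j hj
    rw [Finset.mem_range] at hj
    rcases (Sj j).eq_empty_or_nonempty with h0 | ⟨n0, hn0⟩
    · rw [h0]; simp only [Finset.card_empty, Nat.cast_zero]; positivity
    have h1 : T ^ (η / 2) ≤ (2 : ℝ) ^ j := by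
      have h2 := (Finset.mem_filter.1 hn0).2
      have h3 := dp_trivial hσ0 X j (t n0)
      linarith
    have h2 : (2 : ℝ) ^ j ≤ T ^ κ := by
      have : 2 ^ j ≤ X := (Nat.pow_le_pow_right (by norm_num) (by omega)).trans
        (Nat.pow_log_le_self 2 (by omega))
      have h2 : (2 : ℝ) ^ j ≤ X := by exact_mod_cast this
      linarith
    refine hb T hT1 σ hσ0 hσ1 X j N0 hN0 h1 h2 (Sj j) ((Finset.filter_subset _ _).trans hS) t
      (fun n hn => ht n (Finset.mem_filter.1 hn).1) fun n hn => ?_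
    have h3 := (Finset.mem_filter.1 hn).2
    linarith
  calc (S.card : ℝ) ≤ (((Finset.range J).biUnion Sj).card : ℝ) := by
        exact_mod_cast Finset.card_le_card hcover
    _ ≤ ∑ j ∈ Finset.range J, ((Sj j).card : ℝ) := by exact_mod_cast Finset.card_biUnion_le
    _ ≤ ∑ j ∈ Finset.range J, C * T ^ (2 - 2 * σ + 6 * κ) := Finset.sum_le_sum hbd
    _ = J * (C * T ^ (2 - 2 * σ + 6 * κ)) := by
        rw [Finset.sum_const, Finset.card_range, nsmul_eq_mul]
    _ ≤ T ^ κ * (C * T ^ (2 - 2 * σ + 6 * κ)) := by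
        have : (J : ℝ) ≤ T ^ κ := hJle.trans e2
        gcongr
    _ = C * T ^ (2 - 2 * σ + 7 * κ) := by
        rw [mul_left_comm, ← Real.rpow_add hTpos]
        congr 2
        ring

lemma MX_right : ∃ C : ℝ, 1 ≤ C ∧ ∀ (X : ℕ) (s : ℂ), 2 ≤ s.re → ‖MX X s‖ ≤ C := by
  refine ⟨max (∑' n : ℕ, 1 / (n:ℝ) ^ (2 : ℝ)) 1, le_max_right _ _, fun X s hs => ?_⟩
  rw [← LSeries_tX]
  refine (lseries_bound (a := 2) (by norm_num) (tX X) (fun n => ?_) hs).trans (le_max_left _ _)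
  unfold tX
  split_ifs
  · exact moebius_norm_le n
  · simp

/-- bounds on a segment of a vertical line imply bounds on its right -/
lemma kernel : ∃ C : ℝ, 1 ≤ C ∧ ∀ (X : ℕ) (T V σ₀ : ℝ), (X : ℝ) ≤ T → 1 ≤ Real.log T → 1 ≤ V →
    0 ≤ σ₀ → σ₀ ≤ 1 → ∀ s0 : ℂ, σ₀ ≤ s0.re →
    (∀ t : ℝ, |t - s0.im| ≤ Real.log T → ‖MX X ((σ₀ : ℂ) + t * I)‖ ≤ V) → ‖MX X s0‖ ≤ C * V := by
  obtain ⟨C0, hC0, hr⟩ := MX_right
  refine ⟨C0 * Real.exp 9, ?_, ?_⟩
  · have : 1 ≤ Real.exp 9 := Real.one_le_exp (by norm_num)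
    nlinarith
  intro X T V σ₀ hX hT hV h0 h1 s0 hs0 hb
  have hTpos : 0 < T := by
    by_contra hcon
    push Not at hcon
    have hX0 : (0 : ℝ) ≤ X := by positivity
    have : T = 0 := by linarith
    rw [this, Real.log_zero] at hT
    linarith
  have he9 : 1 ≤ Real.exp 9 := Real.one_le_exp (by norm_num)
  rcases le_total 2 s0.re with h2 | h2
  · calc ‖MX X s0‖ ≤ C0 := hr X s0 h2
      _ = C0 * 1 * 1 := by ring
      _ ≤ C0 * Real.exp 9 * V := by gcongr
  set ℓ := Real.log T with hℓ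
  set U : Set ℂ := Ioo σ₀ 3 ×ℂ Ioo (s0.im - ℓ) (s0.im + ℓ) with hU
  set F : ℂ → ℂ := fun z => MX X z * cexp ((z - s0) ^ 2) with hF
  have hFd : Differentiable ℂ F := by
    intro z
    exact (MX_differentiable X z).mul (by fun_prop)
  have hbd : Bornology.IsBounded U := (Metric.isBounded_Ioo _ _).reProdIm (Metric.isBounded_Ioo _ _)
  have hcl : closure U = Icc σ₀ 3 ×ℂ Icc (s0.im - ℓ) (s0.im + ℓ) := by
    rw [hU, Complex.closure_reProdIm, closure_Ioo (by linarith), closure_Ioo (by linarith)]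
  have hs0U : s0 ∈ closure U := by
    rw [hcl]
    exact ⟨⟨hs0, by linarith⟩, ⟨by linarith, by linarith⟩⟩
  have hexp : ∀ z : ℂ, ‖cexp ((z - s0) ^ 2)‖ = Real.exp ((z.re - s0.re) ^ 2 - (z.im - s0.im) ^ 2) := by
    intro z
    rw [Complex.norm_exp]
    congr 1
    rw [pow_two, Complex.mul_re, Complex.sub_re, Complex.sub_im]
    ring
  have hmain : ‖F s0‖ ≤ C0 * Real.exp 9 * V := by
    refine Complex.norm_le_of_forall_mem_frontier_norm_le (U := U) hbd hFd.diffContOnCl ?_ hs0U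
    intro z hz
    have hzc : z ∈ closure U := frontier_subset_closure hz
    rw [hcl] at hzc
    obtain ⟨⟨hz1, hz2⟩, ⟨hz3, hz4⟩⟩ := hzc
    rw [hU, Complex.frontier_reProdIm, frontier_Ioo (by linarith), frontier_Ioo (by linarith),
      closure_Ioo (by linarith), closure_Ioo (by linarith)] at hz
    have hsq : (z.re - s0.re) ^ 2 ≤ 9 := by
      have a1 : -3 ≤ z.re - s0.re := by linarith
      have a2 : z.re - s0.re ≤ 3 := by linarith
      nlinarith
    simp only [hF]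
    rw [norm_mul, hexp]
    have hV0 : 0 ≤ V := by linarith
    rcases hz with ⟨-, h4⟩ | ⟨h4, -⟩
    · -- horizontal sides
      have h5 : (z.im - s0.im) ^ 2 = ℓ ^ 2 := by
        rcases h4 with h4 | h4
        · have : z.im = s0.im - ℓ := h4
          rw [this]; ring
        · have : z.im = s0.im + ℓ := h4
          rw [this]; ring
      rw [h5]
      have h6 := MX_norm_le X (s := z) (by linarith)
      calc ‖MX X z‖ * Real.exp ((z.re - s0.re) ^ 2 - ℓ ^ 2)
          ≤ T * Real.exp (9 - ℓ ^ 2) := by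
            have : ‖MX X z‖ ≤ T := h6.trans hX
            gcongr
        _ = Real.exp ℓ * Real.exp (9 - ℓ ^ 2) := by rw [hℓ, Real.exp_log hTpos]
        _ = Real.exp (ℓ + (9 - ℓ ^ 2)) := (Real.exp_add _ _).symm
        _ ≤ Real.exp 9 := Real.exp_le_exp.2 (by nlinarith)
        _ = 1 * Real.exp 9 * 1 := by ring
        _ ≤ C0 * Real.exp 9 * V := by gcongr
    · have h7 : Real.exp ((z.re - s0.re) ^ 2 - (z.im - s0.im) ^ 2) ≤ Real.exp 9 :=
        Real.exp_le_exp.2 (by nlinarith [sq_nonneg (z.im - s0.im)])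
      rcases h4 with h4 | h4
      · have h5 : z = (σ₀ : ℂ) + z.im * I := by
          have : z.re = σ₀ := h4
          rw [← this]; exact (Complex.re_add_im z).symm
        have h6 : ‖MX X z‖ ≤ V := by
          rw [h5]
          refine hb z.im ?_
          rw [abs_le]; constructor <;> linarith
        calc ‖MX X z‖ * Real.exp ((z.re - s0.re) ^ 2 - (z.im - s0.im) ^ 2)
            ≤ V * Real.exp 9 := by gcongr
          _ = 1 * Real.exp 9 * V := by ring
          _ ≤ C0 * Real.exp 9 * V := by gcongr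
      · have h5 : z.re = 3 := h4
        have h6 : ‖MX X z‖ ≤ C0 := hr X z (by linarith)
        calc ‖MX X z‖ * Real.exp ((z.re - s0.re) ^ 2 - (z.im - s0.im) ^ 2)
            ≤ C0 * Real.exp 9 := by gcongr
          _ = C0 * Real.exp 9 * 1 := by ring
          _ ≤ C0 * Real.exp 9 * V := by gcongr
  simpa [hF] using hmain

end Pool.Agent.X284.AZ
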