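import Pool.Agent.X284.AZ.Path
import Pool.Agent.X284.AZ.Moll

/-!
A zero of zeta that is joined to the line `Re s = 1` by a corridor with few zeros makes the mollifier
large.
-/

set_option autoImplicit false

open Complex Metric Set Filter Topology

namespace Pool.Agent.X284.AZ

open DH31 H370 H370.Loc

/-- the mollified zeta function is close to `1` on the right of the line `Re s = 1` -/
lemma near_one {r κ : ℝ} (hr : 0 < r) (hκ : 0 < κ) : ∃ T0 : ℝ, ∀ T : ℝ, T0 ≤ T → ∀ s : ℂ,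
    1 + r / 2 ≤ s.re → ‖riemannZeta s * MX ⌊T ^ κ⌋₊ s - 1‖ ≤ Real.exp (-(κ * r / 8 * Real.log T)) := by
  obtain ⟨Cd, hCd1, hCd⟩ := div_bound (ε := r / 8) (by positivity)
  have hsum : Summable (fun n : ℕ => 1 / (n:ℝ) ^ (1 + r / 8)) :=
    Real.summable_one_div_nat_rpow.mpr (by linarith)
  set Z := ∑' n : ℕ, 1 / (n:ℝ) ^ (1 + r / 8) with hZ
  have hZ0 : 0 ≤ Z := tsum_nonneg fun n => by positivity
  have ev1 : ∀ᶠ T : ℝ in atTop, Cd * Z ≤ T ^ (κ * r / 8) :=
    (tendsto_rpow_atTop (show 0 < κ * r / 8 by positivity)).eventually_ge_atTop _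
  obtain ⟨T0, hT0⟩ := Filter.eventually_atTop.1 (ev1.and (eventually_ge_atTop (1 : ℝ)))
  refine ⟨T0, fun T hT s hs => ?_⟩
  obtain ⟨e1, e2⟩ := hT0 T hT
  have hTpos : 0 < T := by linarith
  have hs1 : 1 < s.re := by linarith
  set X := ⌊T ^ κ⌋₊ with hX
  have hX1 : 1 ≤ X := Nat.le_floor (by simpa using Real.one_le_rpow e2 hκ.le)
  have hXT : T ^ κ < X + 1 := Nat.lt_floor_add_one _
  rw [← LSeries_aX X hs1]
  have h1 : HasSum (fun n => LSeries.term (aX X) s n - if n = 1 then (1 : ℂ) else 0)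
      (LSeries (aX X) s - 1) :=
    (LSeriesSummable_aX X hs1).hasSum.sub (hasSum_ite_eq 1 1)
  have h2 : HasSum (fun n : ℕ => Cd * T ^ (-(κ * r / 4)) * (1 / (n:ℝ) ^ (1 + r / 8)))
      (Cd * T ^ (-(κ * r / 4)) * Z) := hsum.hasSum.mul_left _
  have h3 : ‖LSeries (aX X) s - 1‖ ≤ Cd * T ^ (-(κ * r / 4)) * Z := by
    rw [← h1.tsum_eq]
    refine tsum_of_norm_bounded h2 fun n => ?_
    have hb0 : 0 ≤ Cd * T ^ (-(κ * r / 4)) * (1 / (n:ℝ) ^ (1 + r / 8)) := by positivity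
    rcases Nat.eq_zero_or_pos n with rfl | hn
    · simpa using hb0
    rw [LSeries.term_of_ne_zero (by omega)]
    by_cases hn1 : n = 1
    · subst hn1
      rw [aX_one hX1]
      simp only [Nat.cast_one, Complex.one_cpow, div_one, if_true, sub_self, norm_zero]
      positivity
    rw [if_neg hn1, sub_zero]
    by_cases hnX : n ≤ X
    · rw [aX_zero (by omega) hnX, zero_div, norm_zero]
      exact hb0
    push Not at hnX
    have hnr : (1 : ℝ) ≤ n := by exact_mod_cast hn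
    have hnpos : (0 : ℝ) < n := by linarith
    have hnT : T ^ κ ≤ n := by
      have : (X : ℝ) + 1 ≤ n := by exact_mod_cast hnX
      linarith
    rw [norm_div, Complex.norm_natCast_cpow_of_pos hn]
    have g1 : ‖aX X n‖ ≤ Cd * (n : ℝ) ^ (r / 8) := (aX_norm_le X n).trans (hCd n hn)
    have g2 : (n : ℝ) ^ (1 + r / 2) ≤ (n : ℝ) ^ s.re := Real.rpow_le_rpow_of_exponent_le hnr hs
    calc ‖aX X n‖ / (n : ℝ) ^ s.re ≤ Cd * (n : ℝ) ^ (r / 8) / (n : ℝ) ^ (1 + r / 2) := by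
          gcongr
      _ = Cd * ((n : ℝ) ^ (-(r / 4)) * (1 / (n:ℝ) ^ (1 + r / 8))) := by
          rw [one_div, ← Real.rpow_neg hnpos.le, ← Real.rpow_add hnpos, mul_div_assoc,
            ← Real.rpow_sub hnpos]
          congr 2
          ring
      _ ≤ Cd * (T ^ (-(κ * r / 4)) * (1 / (n:ℝ) ^ (1 + r / 8))) := by
          have : (n : ℝ) ^ (-(r / 4)) ≤ T ^ (-(κ * r / 4)) := by
            calc (n : ℝ) ^ (-(r / 4)) ≤ (T ^ κ) ^ (-(r / 4)) :=
                  Real.rpow_le_rpow_of_nonpos (by positivity) hnT (by linarith)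
              _ = T ^ (-(κ * r / 4)) := by
                  rw [← Real.rpow_mul hTpos.le]; congr 1; ring
          gcongr
      _ = _ := by ring
  refine h3.trans ?_
  calc Cd * T ^ (-(κ * r / 4)) * Z = Cd * Z * T ^ (-(κ * r / 4)) := by ring
    _ ≤ T ^ (κ * r / 8) * T ^ (-(κ * r / 4)) := by gcongr
    _ = T ^ (-(κ * r / 8)) := by rw [← Real.rpow_add hTpos]; congr 1; ring
    _ = Real.exp (-(κ * r / 8 * Real.log T)) := by
        rw [Real.rpow_def_of_pos hTpos]; congr 1; ring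

/-- the points of the chain -/
noncomputable def cc (p : ℝ → ℂ) (r : ℝ) (N j : ℕ) : ℂ :=
  p (1 - (j : ℝ) / N) + (((1 - (j : ℝ) / N) * r : ℝ) : ℂ)

/-- a zero that is joined to the line `Re s = 1` by a corridor with few zeros makes the mollifier
large -/
theorem main_bad {r L κ : ℝ} (hr : 0 < r) (hr1 : r ≤ 1 / 28) (hL : 0 ≤ L) (hκ : 0 < κ)
    (hκ1 : κ ≤ 1) :
    ∃ η : ℝ, 0 < η ∧ ∃ η₂ : ℝ, 0 < η₂ ∧ ∃ T0 : ℝ, ∀ T : ℝ, T0 ≤ T → ∀ σ : ℝ, 1 / 2 ≤ σ → σ ≤ 1 →
      ∀ (p : ℝ → ℂ), riemannZeta (p 0) = 0 → L + 3 ≤ (p 0).im → (p 0).im ≤ T → 1 ≤ (p 1).re →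
      (∀ x ∈ Icc (0 : ℝ) 1, σ ≤ (p x).re) →
      (∀ x ∈ Icc (0 : ℝ) 1, ∀ y ∈ Icc (0 : ℝ) 1, ‖p x - p y‖ ≤ L * |x - y|) →
      (∀ S : Finset ℂ, (∀ z ∈ S, (∃ x ∈ Icc (0 : ℝ) 1, ‖z - p x‖ ≤ 5 * r) ∧ riemannZeta z = 0) →
        ∑ z ∈ S, (mult riemannZeta z : ℝ) ≤ η * Real.log T) →
      ∃ t : ℝ, |t - (p 0).im| ≤ Real.log T + L + 1 ∧
        T ^ η₂ ≤ ‖MX ⌊T ^ κ⌋₊ (((σ - r : ℝ) : ℂ) + t * I)‖ := by
  set N : ℕ := ⌈4 * (L + r) / r⌉₊ + 1 with hN
  have hN1 : (1 : ℝ) ≤ N := by rw [hN]; push_cast; linarith [Nat.cast_nonneg (α := ℝ) ⌈4 * (L + r) / r⌉₊]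
  have hNpos : (0 : ℝ) < N := by linarith
  have hN4 : (L + r) / N ≤ r / 4 := by
    have h1 : 4 * (L + r) / r ≤ N := by
      rw [hN]; push_cast
      linarith [Nat.le_ceil (4 * (L + r) / r)]
    rw [div_le_iff₀ hr] at h1
    rw [div_le_iff₀ hNpos]
    linarith
  obtain ⟨b, hb, a', ha', Λ0, hchain⟩ := chainSmall N (κ * r / 8) (by positivity)
  obtain ⟨η, hη, T1, hback⟩ := backPath hr hr1 hL (show 0 < b / 4 by positivity) N
  obtain ⟨T2, hone⟩ := near_one hr hκ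
  obtain ⟨Ck, hCk, hker⟩ := kernel
  have ev1 : ∀ᶠ T : ℝ in atTop, Ck + 1 ≤ T ^ (b / 4) :=
    (tendsto_rpow_atTop (show 0 < b / 4 by positivity)).eventually_ge_atTop _
  have ev2 : ∀ᶠ T : ℝ in atTop, max Λ0 1 ≤ Real.log T := Real.tendsto_log_atTop.eventually_ge_atTop _
  obtain ⟨T3, hT3⟩ := Filter.eventually_atTop.1 ((ev1.and ev2).and (eventually_ge_atTop (1 : ℝ)))
  refine ⟨η, hη, b / 4, by positivity, max (max T1 T2) T3, ?_⟩
  intro T hT σ hσ hσ1 p hp0 him hT' hp1 hσp hlip hcount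
  have hT1 : T1 ≤ T := (le_max_left _ _).trans ((le_max_left _ _).trans hT)
  have hT2 : T2 ≤ T := (le_max_right _ _).trans ((le_max_left _ _).trans hT)
  obtain ⟨⟨e1, e2⟩, e3⟩ := hT3 T ((le_max_right _ _).trans hT)
  have hTpos : 0 < T := by linarith
  have hΛ0 : Λ0 ≤ Real.log T := (le_max_left _ _).trans e2
  have hΛ1 : 1 ≤ Real.log T := (le_max_right _ _).trans e2
  by_contra hcon
  push Not at hcon
  have h0I : (0 : ℝ) ∈ Icc (0 : ℝ) 1 := ⟨le_rfl, zero_le_one⟩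
  have h1I : (1 : ℝ) ∈ Icc (0 : ℝ) 1 := ⟨zero_le_one, le_rfl⟩
  have hdiam : ∀ x ∈ Icc (0 : ℝ) 1, ∀ y ∈ Icc (0 : ℝ) 1, ‖p x - p y‖ ≤ L := by
    intro x hx y hy
    refine (hlip x hx y hy).trans ?_
    have : |x - y| ≤ 1 := by
      rw [abs_le]; constructor <;> linarith [hx.1, hx.2, hy.1, hy.2]
    nlinarith
  have hρ1 : (p 0).re < 1 := by
    by_contra hc
    push Not at hc
    exact riemannZeta_ne_zero_of_one_le_re hc hp0
  have hρσ := hσp 0 h0I
  -- points near the path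
  have hclose : ∀ z x, x ∈ Icc (0 : ℝ) 1 → ∀ d : ℝ, ‖z - p x‖ ≤ d →
      σ - d ≤ z.re ∧ |z.im - (p 0).im| ≤ L + d := by
    intro z x hx d hd
    have h1 := abs_le.1 ((Complex.abs_re_le_norm (z - p x)).trans hd)
    rw [Complex.sub_re] at h1
    have h2 := hσp x hx
    refine ⟨by linarith [h1.1], ?_⟩
    have h3 : ‖z - p 0‖ ≤ L + d := by
      calc ‖z - p 0‖ = ‖(z - p x) + (p x - p 0)‖ := by congr 1; ring
        _ ≤ ‖z - p x‖ + ‖p x - p 0‖ := norm_add_le _ _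
        _ ≤ d + L := add_le_add hd (hdiam x hx 0 h0I)
        _ = L + d := by ring
    have h4 := (Complex.abs_im_le_norm (z - p 0)).trans h3
    rwa [Complex.sub_im] at h4
  set c : ℕ → ℂ := cc p r N with hc
  have hxj : ∀ j ≤ N, 1 - (j : ℝ) / N ∈ Icc (0 : ℝ) 1 := by
    intro j hj
    have h1 : (j : ℝ) / N ≤ 1 := by
      rw [div_le_one hNpos]; exact_mod_cast hj
    have h2 : 0 ≤ (j : ℝ) / N := by positivity
    exact ⟨by linarith, by linarith⟩
  have hcp : ∀ j ≤ N, ‖c j - p (1 - (j : ℝ) / N)‖ ≤ r := by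
    intro j hj
    have h1 := hxj j hj
    simp only [hc, cc, add_sub_cancel_left]
    rw [Complex.norm_real, Real.norm_of_nonneg (mul_nonneg h1.1 hr.le)]
    nlinarith [h1.2]
  have hcσ : ∀ j ≤ N, σ ≤ (c j).re := by
    intro j hj
    have h1 := hxj j hj
    have h2 := hσp _ h1
    simp only [hc, cc, Complex.add_re, Complex.ofReal_re]
    have := mul_nonneg h1.1 hr.le
    linarith
  have hstep : ∀ j < N, ‖c (j + 1) - c j‖ ≤ r / 4 := by
    intro j hj
    have h1 := hxj j (by omega)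
    have h2 := hxj (j + 1) (by omega)
    have h3 := hlip _ h2 _ h1
    have h4 : (1 - ((j + 1 : ℕ) : ℝ) / N) - (1 - (j : ℝ) / N) = -(1 / N) := by
      push_cast; ring
    rw [h4, abs_neg, abs_of_pos (by positivity)] at h3
    have h5 : c (j + 1) - c j = (p (1 - ((j + 1 : ℕ) : ℝ) / N) - p (1 - (j : ℝ) / N)) +
        ((-(1 / N) * r : ℝ) : ℂ) := by
      simp only [hc, cc]
      rw [← h4]
      push_cast
      ring
    rw [h5]
    refine (norm_add_le _ _).trans ?_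
    rw [Complex.norm_real, norm_mul, norm_neg, Real.norm_of_nonneg (by positivity : (0:ℝ) ≤ 1 / N),
      Real.norm_of_nonneg hr.le]
    calc ‖p (1 - ((j + 1 : ℕ) : ℝ) / N) - p (1 - (j : ℝ) / N)‖ + 1 / N * r
        ≤ L * (1 / N) + 1 / N * r := by gcongr
      _ = (L + r) / N := by ring
      _ ≤ r / 4 := hN4
  have hc0 : 1 + r ≤ (c 0).re := by
    simp only [hc, cc, Nat.cast_zero, zero_div, sub_zero, one_mul, Complex.add_re,
      Complex.ofReal_re]
    linarith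
  have hcN : c N = p 0 := by
    simp only [hc, cc]
    rw [div_self hNpos.ne']
    simp
  -- bound of zeta
  have hζ := hback T hT1 p c
    (fun x hx => by
      have h1 := hσp x hx
      obtain ⟨-, h2⟩ := hclose (p x) x hx 0 (by simp)
      have h3 := abs_le.1 h2
      refine ⟨by linarith, by linarith [h3.1], ?_⟩
      have h4 : ‖p 0‖ ≤ 1 + T := by
        refine (Complex.norm_le_abs_re_add_abs_im _).trans ?_
        rw [abs_of_nonneg (by linarith), abs_of_nonneg (by linarith)]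
        linarith
      calc ‖p x‖ = ‖(p x - p 0) + p 0‖ := by congr 1; ring
        _ ≤ ‖p x - p 0‖ + ‖p 0‖ := norm_add_le _ _
        _ ≤ L + (1 + T) := add_le_add (hdiam x hx 0 h0I) h4
        _ ≤ T + L + 3 := by linarith)
    hdiam (fun j hj => ⟨_, hxj j hj, hcp j hj⟩) (fun j hj => (hstep j hj).trans (by linarith)) hc0
    hcount
  -- bound of the mollifier
  set X := ⌊T ^ κ⌋₊ with hX
  have hXT : (X : ℝ) ≤ T := by
    calc (X : ℝ) ≤ T ^ κ := Nat.floor_le (by positivity)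
      _ ≤ T ^ (1 : ℝ) := Real.rpow_le_rpow_of_exponent_le e3 hκ1
      _ = T := Real.rpow_one T
  have hTb : 1 ≤ T ^ (b / 4) := Real.one_le_rpow e3 (by positivity)
  have hball : ∀ j ≤ N, ∀ z ∈ ball (c j) r, σ - r ≤ z.re ∧ |z.im - (p 0).im| ≤ L + 1 := by
    intro j hj z hz
    rw [mem_ball, dist_eq_norm] at hz
    have h1 := abs_le.1 ((Complex.abs_re_le_norm (z - c j)).trans hz.le)
    rw [Complex.sub_re] at h1
    refine ⟨by linarith [h1.1, hcσ j hj], ?_⟩
    have h2 : ‖z - p (1 - (j : ℝ) / N)‖ ≤ 2 * r := by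
      calc ‖z - p (1 - (j : ℝ) / N)‖ = ‖(z - c j) + (c j - p (1 - (j : ℝ) / N))‖ := by
            congr 1; ring
        _ ≤ ‖z - c j‖ + ‖c j - p (1 - (j : ℝ) / N)‖ := norm_add_le _ _
        _ ≤ 2 * r := by linarith [hcp j hj]
    have h3 := (hclose z _ (hxj j hj) _ h2).2
    linarith
  have hM : ∀ j ≤ N, ∀ z ∈ ball (c j) r, ‖MX X z‖ ≤ Ck * T ^ (b / 4) := by
    intro j hj z hz
    obtain ⟨h1, h2⟩ := hball j hj z hz
    refine hker X T (T ^ (b / 4)) (σ - r) hXT hΛ1 hTb (by linarith) (by linarith) z h1 fun t ht => ?_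
    refine (hcon t ?_).le
    calc |t - (p 0).im| = |(t - z.im) + (z.im - (p 0).im)| := by congr 1; ring
      _ ≤ |t - z.im| + |z.im - (p 0).im| := abs_add_le _ _
      _ ≤ Real.log T + L + 1 := by linarith
  -- the chain
  set F : ℂ → ℂ := fun s => riemannZeta s * MX X s - 1 with hF
  have hfin := hchain (Real.log T) hΛ0 r F c hr
    (fun j hj z hz => by
      obtain ⟨-, h2⟩ := hball j hj z hz
      have h3 := abs_le.1 h2
      have h4 : AnalyticAt ℂ riemannZeta z := zeta_analyticAt (by linarith [h3.1])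
      exact ((h4.differentiableAt.mul (MX_differentiable X z)).sub_const 1).differentiableWithinAt)
    (fun j hj z hz => by
      have h1 := hζ j hj z (ball_subset_closedBall hz)
      have h2 := hM j hj z hz
      simp only [hF]
      calc ‖riemannZeta z * MX X z - 1‖ ≤ ‖riemannZeta z * MX X z‖ + ‖(1 : ℂ)‖ := norm_sub_le _ _
        _ = ‖riemannZeta z‖ * ‖MX X z‖ + 1 := by rw [norm_mul, norm_one]
        _ ≤ T ^ (b / 4) * (Ck * T ^ (b / 4)) + 1 := by gcongr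
        _ ≤ T ^ (b / 4) * (Ck * T ^ (b / 4)) + T ^ (b / 4) * (1 * T ^ (b / 4)) := by
            have : 1 ≤ T ^ (b / 4) * (1 * T ^ (b / 4)) := by nlinarith
            linarith
        _ = (Ck + 1) * (T ^ (b / 4) * T ^ (b / 4)) := by ring
        _ ≤ T ^ (b / 4) * (T ^ (b / 4) * T ^ (b / 4)) := by gcongr
        _ = T ^ (3 * b / 4) := by
            rw [← Real.rpow_add hTpos, ← Real.rpow_add hTpos]; congr 1; ring
        _ ≤ T ^ b := Real.rpow_le_rpow_of_exponent_le e3 (by linarith)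
        _ = Real.exp (b * Real.log T) := by rw [Real.rpow_def_of_pos hTpos, mul_comm])
    hstep
    (fun z hz => by
      refine hone T hT2 z ?_
      rw [mem_closedBall, dist_eq_norm] at hz
      have h1 := abs_le.1 ((Complex.abs_re_le_norm (z - c 0)).trans hz)
      rw [Complex.sub_re] at h1
      linarith [h1.1])
    (p 0) (by rw [hcN]; exact mem_closedBall_self (by positivity))
  simp only [hF] at hfin
  rw [hp0, zero_mul, zero_sub, norm_neg, norm_one] at hfin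
  have : Real.exp (-(a' * Real.log T)) < 1 := by
    rw [Real.exp_lt_one_iff]
    have : 0 < a' * Real.log T := by positivity
    linarith
  linarith

end Pool.Agent.X284.AZ
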