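import Pool.Agent.H31R2.DH.CountA

/-!
Large values of the mollifier of zeta on a vertical line.
-/

set_option autoImplicit false

open Complex Metric MeasureTheory Set Filter Topology

namespace Pool.Agent.X284.AZ

open DH31 ArithmeticFunction

/-- the dyadic pieces of the mollifier -/
noncomputable def bm (σ : ℝ) (X j : ℕ) : ArithmeticFunction ℂ :=
  ⟨fun n => if n ∈ Finset.Icc 1 X ∧ Nat.log 2 n = j then
    (ArithmeticFunction.moebius n : ℂ) * (n : ℂ) ^ (-(σ : ℂ)) else 0, by simp⟩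

lemma bm_apply (σ : ℝ) (X j n : ℕ) :
    bm σ X j n = if n ∈ Finset.Icc 1 X ∧ Nat.log 2 n = j then
      (ArithmeticFunction.moebius n : ℂ) * (n : ℂ) ^ (-(σ : ℂ)) else 0 := rfl

lemma bm_support {σ : ℝ} {X j : ℕ} : ∀ n, bm σ X j n ≠ 0 → 2 ^ j ≤ n ∧ n ≤ 2 ^ (j + 1) := by
  intro n hn
  rw [bm_apply] at hn
  by_cases h : n ∈ Finset.Icc 1 X ∧ Nat.log 2 n = j
  · rw [Finset.mem_Icc] at h
    obtain ⟨h1, rfl⟩ := h
    exact ⟨Nat.pow_log_le_self 2 (by omega), (Nat.lt_pow_succ_log_self (by norm_num) n).le⟩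
  · rw [if_neg h] at hn; exact absurd rfl hn

lemma bm_norm_le' {σ : ℝ} {X j : ℕ} : ∀ n : ℕ, 1 ≤ n → ‖bm σ X j n‖ ≤ (n : ℝ) ^ (-σ) := by
  intro n hn
  rw [bm_apply]
  split_ifs
  · rw [norm_mul, Complex.norm_natCast_cpow_of_pos (by omega)]
    have h1 := moebius_norm_le n
    have h2 : (-(σ : ℂ)).re = -σ := by rw [Complex.neg_re, Complex.ofReal_re]
    rw [h2]
    have h3 : (0 : ℝ) ≤ (n : ℝ) ^ (-σ) := by positivity
    nlinarith
  · rw [norm_zero]; positivity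

lemma bm_norm_le {σ : ℝ} {X j : ℕ} :
    ∀ n : ℕ, 1 ≤ n → ‖bm σ X j n‖ ≤ (n.divisors.card : ℝ) * (n : ℝ) ^ (-σ) := by
  intro n hn
  refine (bm_norm_le' n hn).trans ?_
  have h1 : (1 : ℝ) ≤ n.divisors.card := by
    have : 1 ≤ n.divisors.card := Finset.card_pos.2 ⟨1, Nat.one_mem_divisors.2 (by omega)⟩
    exact_mod_cast this
  have h3 : (0 : ℝ) ≤ (n : ℝ) ^ (-σ) := by positivity
  nlinarith

/-- decomposition into dyadic pieces -/
lemma bm_dyadic {σ : ℝ} {X J : ℕ} (hJ : X < 2 ^ J) (t : ℝ) :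
    MX X ((σ : ℂ) + t * I) = ∑ j ∈ Finset.range J, dp (fun n => bm σ X j n) (2 ^ (j + 1)) t := by
  have hmaps : ∀ n ∈ Finset.Icc 1 X, Nat.log 2 n ∈ Finset.range J := by
    intro n hn
    rw [Finset.mem_Icc] at hn
    rw [Finset.mem_range]
    exact Nat.log_lt_of_lt_pow (by omega) (by omega)
  unfold MX
  rw [← Finset.sum_fiberwise_of_maps_to hmaps]
  refine Finset.sum_congr rfl fun j _ => ?_
  unfold dp
  symm
  rw [Finset.sum_filter]
  have h1 : ∀ n ∈ Finset.Icc 1 (2 ^ (j + 1)), bm σ X j n * (n : ℂ) ^ (-(t : ℂ) * I) =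
      if n ∈ Finset.Icc 1 X ∧ Nat.log 2 n = j then
        (ArithmeticFunction.moebius n : ℂ) * (n : ℂ) ^ (-((σ : ℂ) + t * I)) else 0 := by
    intro n hn
    rw [Finset.mem_Icc] at hn
    rw [bm_apply]
    have hn0 : (n : ℂ) ≠ 0 := by
      have : n ≠ 0 := by omega
      exact_mod_cast this
    split_ifs
    · rw [mul_assoc, ← Complex.cpow_add _ _ hn0]
      congr 2
      ring
    · simp
  rw [Finset.sum_congr rfl h1, ← Finset.sum_filter, ← Finset.sum_filter]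
  refine Finset.sum_congr ?_ fun _ _ => rfl
  ext n
  simp only [Finset.mem_filter, Finset.mem_Icc]
  constructor
  · rintro ⟨_, h2, h3⟩
    exact ⟨h2, h3⟩
  · rintro ⟨h2, h3⟩
    refine ⟨⟨by omega, ?_⟩, h2, h3⟩
    have := Nat.lt_pow_succ_log_self (show 1 < 2 by norm_num) n
    rw [h3] at this
    exact this.le

/-- count of the large values of one dyadic piece -/
theorem blockM {κ η : ℝ} (hκ : 0 < κ) (hκ1 : κ ≤ 1) (hη : 0 < η) :
    ∃ C : ℝ, 0 < C ∧ ∃ T0 : ℝ, ∀ T : ℝ, T0 ≤ T → ∀ σ : ℝ, 0 ≤ σ → σ ≤ 1 → ∀ X j N0 : ℕ,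
      (N0 : ℝ) ≤ 2 * T → T ^ η ≤ (2 : ℝ) ^ j → (2 : ℝ) ^ j ≤ T ^ κ →
      ∀ S : Finset ℕ, S ⊆ Finset.range N0 → ∀ t : ℕ → ℝ,
      (∀ n ∈ S, t n ∈ Icc (n : ℝ) (n + 1)) →
      (∀ n ∈ S, 1 ≤ ‖dp (fun n => bm σ X j n) (2 ^ (j + 1)) (t n)‖) →
      (S.card : ℝ) ≤ C * T ^ (2 - 2 * σ + 6 * κ) := by
  -- bound for the power
  set m0 : ℕ := ⌈1 / η⌉₊ + 1 with hm0
  have hm01 : 1 ≤ m0 := by omega
  have hm0r : (1 : ℝ) ≤ m0 := by exact_mod_cast hm01
  obtain ⟨Cd, hCd1, hCd⟩ := div_bound (ε := κ / (4 * m0)) (by positivity)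
  have ev2 := ev_log (2 + (m0 + 2 : ℝ) ^ 2) κ 2 hκ
  have ev3 := ev_log (1 + (m0 + 2 : ℝ)) κ 1 hκ
  have ev6 : ∀ᶠ T : ℝ in atTop, 1 ≤ Real.log T := Real.tendsto_log_atTop.eventually_ge_atTop _
  obtain ⟨T0, hT0⟩ := Filter.eventually_atTop.1 ((ev2.and ev3).and
    (ev6.and (eventually_ge_atTop (1 : ℝ))))
  refine ⟨(2 + 8 * 2 ^ m0) * 2 ^ m0 * (Cd ^ (4 * m0) * 2 ^ m0), by positivity, T0, ?_⟩
  intro T hT σ hσ1 hσ2 X j N0 hN0 hNl hNu S hS t ht hlarge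
  obtain ⟨⟨e2, e3⟩, ⟨e6, e7⟩⟩ := hT0 T hT
  have hTpos : 0 < T := by linarith
  set N : ℕ := 2 ^ j with hN
  have hNcast : (N : ℝ) = (2 : ℝ) ^ j := by rw [hN]; push_cast; ring
  rw [← hNcast] at hNl hNu
  have hY : 2 ^ (j + 1) = 2 * N := by rw [pow_succ, hN]; ring
  have hN1 : 1 ≤ N := Nat.one_le_two_pow
  have hNr : (1 : ℝ) ≤ N := by exact_mod_cast hN1
  have hlogN : η * Real.log T ≤ Real.log N := by
    rw [← Real.log_rpow hTpos]
    exact Real.log_le_log (by positivity) hNl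
  have hlogNpos : 0 < Real.log N := lt_of_lt_of_le (by positivity) hlogN
  -- the power
  set m : ℕ := ⌈Real.log T / Real.log N⌉₊ with hm
  have hm1 : Real.log T / Real.log N ≤ m := Nat.le_ceil _
  have hm2 : (m : ℝ) ≤ Real.log T / Real.log N + 1 :=
    (Nat.ceil_lt_add_one (by positivity)).le
  have hmm0 : m ≤ m0 := by
    have h1 : Real.log T / Real.log N ≤ 1 / η := by
      rw [div_le_div_iff₀ hlogNpos hη]
      linarith
    rw [hm, hm0]
    exact (Nat.ceil_le_ceil h1).trans (by omega)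
  have hNm1 : T ≤ (N : ℝ) ^ m := by
    rw [div_le_iff₀ hlogNpos] at hm1
    calc T = Real.exp (Real.log T) := (Real.exp_log hTpos).symm
      _ ≤ Real.exp (m * Real.log N) := Real.exp_le_exp.2 hm1
      _ = (N : ℝ) ^ m := by rw [Real.exp_nat_mul, Real.exp_log (by linarith)]
  have hNm2 : (N : ℝ) ^ m ≤ T * N := by
    calc (N : ℝ) ^ m = Real.exp (m * Real.log N) := by
          rw [Real.exp_nat_mul, Real.exp_log (by linarith)]
      _ ≤ Real.exp ((Real.log T / Real.log N + 1) * Real.log N) := by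
          apply Real.exp_le_exp.2; gcongr
      _ = T * N := by
          rw [add_mul, one_mul, div_mul_cancel₀ _ hlogNpos.ne', Real.exp_add, Real.exp_log hTpos,
            Real.exp_log (by linarith)]
  -- size of Y^m
  set Ym : ℝ := (((2 * N) ^ m : ℕ) : ℝ) with hYm
  have hYm_eq : Ym = 2 ^ m * (N : ℝ) ^ m := by rw [hYm]; push_cast; rw [mul_pow]
  have hYm1 : 1 ≤ Ym := by
    rw [hYm_eq]
    have h1 : (1 : ℝ) ≤ 2 ^ m := one_le_pow₀ (by norm_num)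
    have h2 : (1 : ℝ) ≤ (N : ℝ) ^ m := one_le_pow₀ hNr
    nlinarith
  have h2m : (2 : ℝ) ^ m ≤ 2 ^ m0 := pow_le_pow_right₀ (by norm_num) hmm0
  have hYm2 : Ym ≤ 2 ^ m0 * T ^ (1 + κ) := by
    rw [hYm_eq, Real.rpow_add hTpos, Real.rpow_one]
    calc (2 : ℝ) ^ m * (N : ℝ) ^ m ≤ 2 ^ m0 * (T * N) := by gcongr
      _ ≤ 2 ^ m0 * (T * T ^ κ) := by gcongr
  have hlogYm : Real.log Ym ≤ (m0 + 2) * Real.log T := by
    calc Real.log Ym ≤ Real.log (2 ^ m0 * T ^ (1 + κ)) := Real.log_le_log (by linarith) hYm2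
      _ = m0 * Real.log 2 + (1 + κ) * Real.log T := by
          rw [Real.log_mul (by positivity) (by positivity), Real.log_pow, Real.log_rpow hTpos]
      _ ≤ (m0 + 2) * Real.log T := by
          have h1 : Real.log 2 ≤ 1 := by have := Real.log_two_lt_d9; linarith
          have h2 : (m0 : ℝ) * Real.log 2 ≤ m0 * Real.log T :=
            mul_le_mul_of_nonneg_left (h1.trans e6) (by positivity)
          nlinarith
  have hlogYm0 : 0 ≤ Real.log Ym := Real.log_nonneg hYm1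
  have hP2 : 2 + Real.log Ym ^ 2 ≤ T ^ κ := by
    refine le_trans ?_ e2
    have h1 : Real.log Ym ^ 2 ≤ ((m0 + 2) * Real.log T) ^ 2 := by gcongr
    have h2 : (1 : ℝ) ≤ Real.log T ^ 2 := one_le_pow₀ e6
    rw [mul_pow] at h1
    nlinarith
  have hP3 : 1 + Real.log Ym ≤ T ^ κ := by
    refine le_trans ?_ e3
    rw [pow_one]
    nlinarith
  -- the divisor bound
  set B : ℝ := Cd ^ (4 * m0) * Ym ^ κ with hB
  have hB0 : 0 ≤ B := by positivity
  have hBn : ∀ n ∈ Finset.Icc 1 ((2 * N) ^ m), (n.divisors.card : ℝ) ^ (4 * m) ≤ B := by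
    intro n hn
    rw [Finset.mem_Icc] at hn
    have hnr : (1 : ℝ) ≤ n := by exact_mod_cast hn.1
    have h1 := hCd n hn.1
    have hx1 : 1 ≤ Cd * (n : ℝ) ^ (κ / (4 * m0)) := by
      have : 1 ≤ (n : ℝ) ^ (κ / (4 * m0)) := Real.one_le_rpow hnr (by positivity)
      nlinarith
    calc (n.divisors.card : ℝ) ^ (4 * m) ≤ (Cd * (n : ℝ) ^ (κ / (4 * m0))) ^ (4 * m) := by gcongr
      _ ≤ (Cd * (n : ℝ) ^ (κ / (4 * m0))) ^ (4 * m0) := pow_le_pow_right₀ hx1 (by omega)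
      _ = Cd ^ (4 * m0) * (n : ℝ) ^ κ := by
          rw [mul_pow, ← Real.rpow_natCast ((n : ℝ) ^ (κ / (4 * m0))), ← Real.rpow_mul (by positivity)]
          congr 2
          push_cast
          field_simp
      _ ≤ B := by
          rw [hB]
          have : (n : ℝ) ≤ Ym := by rw [hYm]; exact_mod_cast hn.2
          gcongr
  -- apply the large values estimate
  have hlv := large_values (b := bm σ X j) (N := N) (Y := 2 * N) (m := m) (N0 := N0) (σ := σ)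
    (V := 1) (B := B) hN1 hσ1 zero_le_one
    (fun n hn => by
      have := bm_support n hn
      rw [hY] at this
      exact this)
    bm_norm_le hBn hB0 S hS t ht
    (fun n hn => by
      have := hlarge n hn
      rw [hY] at this
      exact this)
  rw [← hYm, one_pow, mul_one] at hlv
  -- first factor
  have hYB : Ym * ((((N ^ m : ℕ) : ℝ)) ^ (-(2 * σ)) * B) ≤
      2 ^ m0 * T ^ (1 - 2 * σ + κ) * (Cd ^ (4 * m0) * (2 ^ m0 * T ^ (2 * κ))) := by
    have h1 : Ym * (((N ^ m : ℕ) : ℝ)) ^ (-(2 * σ)) ≤ 2 ^ m0 * T ^ (1 - 2 * σ + κ) := by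
      rw [hYm_eq]
      push_cast
      have hNm0 : 0 < (N : ℝ) ^ m := by positivity
      have h2 : (N : ℝ) ^ m * ((N : ℝ) ^ m) ^ (-(2 * σ)) = ((N : ℝ) ^ m) ^ (1 - 2 * σ) := by
        rw [sub_eq_add_neg, Real.rpow_add hNm0, Real.rpow_one]
      have h3 : ((N : ℝ) ^ m) ^ (1 - 2 * σ) ≤ T ^ (1 - 2 * σ + κ) := by
        rcases le_total (1 - 2 * σ) 0 with h | h
        · exact (Real.rpow_le_rpow_of_nonpos hTpos hNm1 h).trans
            (Real.rpow_le_rpow_of_exponent_le e7 (by linarith))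
        · have h4 : (N : ℝ) ^ m ≤ T ^ (1 + κ) := by
            rw [Real.rpow_add hTpos, Real.rpow_one]
            exact hNm2.trans (by gcongr)
          calc ((N : ℝ) ^ m) ^ (1 - 2 * σ) ≤ (T ^ (1 + κ)) ^ (1 - 2 * σ) := by gcongr
            _ = T ^ ((1 + κ) * (1 - 2 * σ)) := by rw [← Real.rpow_mul hTpos.le]
            _ ≤ T ^ (1 - 2 * σ + κ) := by
                apply Real.rpow_le_rpow_of_exponent_le e7
                nlinarith
      calc 2 ^ m * (N : ℝ) ^ m * ((N : ℝ) ^ m) ^ (-(2 * σ))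
          = 2 ^ m * ((N : ℝ) ^ m) ^ (1 - 2 * σ) := by rw [mul_assoc, h2]
        _ ≤ 2 ^ m0 * T ^ (1 - 2 * σ + κ) := by
            gcongr
    have h4 : B ≤ Cd ^ (4 * m0) * (2 ^ m0 * T ^ (2 * κ)) := by
      rw [hB]
      have h5 : Ym ^ κ ≤ 2 ^ m0 * T ^ (2 * κ) := by
        calc Ym ^ κ ≤ (2 ^ m0 * T ^ (1 + κ)) ^ κ := by gcongr
          _ = (2 ^ m0) ^ κ * T ^ ((1 + κ) * κ) := by
              rw [Real.mul_rpow (by positivity) (by positivity), ← Real.rpow_mul hTpos.le]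
          _ ≤ 2 ^ m0 * T ^ (2 * κ) := by
              have h6 : ((2 : ℝ) ^ m0) ^ κ ≤ 2 ^ m0 := by
                have : (1 : ℝ) ≤ 2 ^ m0 := one_le_pow₀ (by norm_num)
                calc ((2 : ℝ) ^ m0) ^ κ ≤ ((2 : ℝ) ^ m0) ^ (1 : ℝ) :=
                      Real.rpow_le_rpow_of_exponent_le this hκ1
                  _ = _ := Real.rpow_one _
              have h7 : T ^ ((1 + κ) * κ) ≤ T ^ (2 * κ) :=
                Real.rpow_le_rpow_of_exponent_le e7 (by nlinarith)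
              gcongr
      gcongr
    rw [← mul_assoc]
    have h8 : 0 ≤ Ym * (((N ^ m : ℕ) : ℝ)) ^ (-(2 * σ)) := by positivity
    exact mul_le_mul h1 h4 hB0 (by positivity)
  have hmid : (N0 : ℝ) + 8 * Ym * (1 + Real.log Ym) ≤ (2 + 8 * 2 ^ m0) * T ^ (1 + 2 * κ) := by
    have h1 : 8 * Ym * (1 + Real.log Ym) ≤ 8 * (2 ^ m0 * T ^ (1 + κ)) * T ^ κ := by gcongr
    have h2 : 8 * (2 ^ m0 * T ^ (1 + κ)) * T ^ κ = 8 * 2 ^ m0 * T ^ (1 + 2 * κ) := by
      have : T ^ (1 + 2 * κ) = T ^ (1 + κ) * T ^ κ := by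
        rw [← Real.rpow_add hTpos]; congr 1; ring
      rw [this]; ring
    have h3 : T ≤ T ^ (1 + 2 * κ) := by
      calc T = T ^ (1 : ℝ) := (Real.rpow_one T).symm
        _ ≤ _ := Real.rpow_le_rpow_of_exponent_le e7 (by linarith)
    rw [h2] at h1
    linarith
  -- conclusion
  have hfin : (2 + Real.log Ym ^ 2) * (N0 + 8 * Ym * (1 + Real.log Ym)) *
        (Ym * ((((N ^ m : ℕ) : ℝ)) ^ (-(2 * σ)) * B)) ≤
      T ^ κ * ((2 + 8 * 2 ^ m0) * T ^ (1 + 2 * κ)) *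
        (2 ^ m0 * T ^ (1 - 2 * σ + κ) * (Cd ^ (4 * m0) * (2 ^ m0 * T ^ (2 * κ)))) := by
    have h0 : 0 ≤ (N0 : ℝ) + 8 * Ym * (1 + Real.log Ym) := by positivity
    have h00 : 0 ≤ Ym * ((((N ^ m : ℕ) : ℝ)) ^ (-(2 * σ)) * B) := by positivity
    gcongr
  calc (S.card : ℝ) ≤ _ := hlv.trans hfin
    _ = (2 + 8 * 2 ^ m0) * 2 ^ m0 * (Cd ^ (4 * m0) * 2 ^ m0) *
        (T ^ κ * T ^ (1 + 2 * κ) * T ^ (1 - 2 * σ + κ) * T ^ (2 * κ)) := by ring
    _ = _ := by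
        rw [← Real.rpow_add hTpos, ← Real.rpow_add hTpos, ← Real.rpow_add hTpos]
        congr 2
        ring

end Pool.Agent.X284.AZ
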