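import Pool.Agent.H31R2.DH.Back

/-!
Propagation of smallness along chains of discs.
-/

set_option autoImplicit false

open Complex Metric Set Filter Topology

namespace Pool.Agent.X284.AZ

open DH31

/-- one step: the logarithm of the modulus of a zero free function stays small -/
lemma stepLog {a B : ℝ} (ha : 0 < a) (hB : 0 ≤ B) : ∃ b : ℝ, 0 < b ∧ ∃ Λ0 : ℝ, ∀ Λ : ℝ, Λ0 ≤ Λ →
    ∀ (R : ℝ) (g : ℂ → ℂ) (c : ℂ), 0 < R → AnalyticOnNhd ℂ g (ball c R) →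
      (∀ z ∈ ball c R, g z ≠ 0) → (∀ z ∈ ball c R, ‖g z‖ ≤ Real.exp (B * Λ)) →
      (∀ z ∈ closedBall c (R / 4), Real.exp (-(b * Λ)) ≤ ‖g z‖ ∧ ‖g z‖ ≤ Real.exp (b * Λ)) →
      ∀ z ∈ closedBall c (R / 2), Real.exp (-(a * Λ)) ≤ ‖g z‖ ∧ ‖g z‖ ≤ Real.exp (a * Λ) := by
  obtain ⟨K, hK⟩ := exists_pow_lt_of_lt_one (show 0 < a / 4 / (18 * (B + 2)) by positivity)
    (show (2 / 3 : ℝ) < 1 by norm_num)
  rw [lt_div_iff₀ (by positivity)] at hK
  set b : ℝ := min 1 (min (a / 4) (a / 4 / (6 * 4 ^ K))) with hb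
  have hb0 : 0 < b := by
    rw [hb]; exact lt_min one_pos (lt_min (by positivity) (by positivity))
  have hb1 : b ≤ 1 := min_le_left _ _
  have hb2 : b ≤ a / 4 := (min_le_right _ _).trans (min_le_left _ _)
  have hb3 : b * (6 * 4 ^ K) ≤ a / 4 := by
    have : b ≤ a / 4 / (6 * 4 ^ K) := (min_le_right _ _).trans (min_le_right _ _)
    rwa [le_div_iff₀ (by positivity)] at this
  refine ⟨b, hb0, 1 / b, ?_⟩
  intro Λ hΛ R g c hR hg hg0 hgB hgb z hz
  have hbΛ : 1 ≤ b * Λ := by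
    rw [div_le_iff₀ hb0] at hΛ; linarith
  have hΛ1 : 1 ≤ Λ := by
    by_contra hcon
    push Not at hcon
    have h0 : 0 ≤ Λ := by
      by_contra h1
      push Not at h1
      nlinarith
    nlinarith
  obtain ⟨h, hh, hhc, hgh⟩ := exists_log hR hg hg0
  have hc0 : c ∈ closedBall c (R / 4) := mem_closedBall_self (by positivity)
  have hgc := hgb c hc0
  have hgcpos : 0 < ‖g c‖ := lt_of_lt_of_le (Real.exp_pos _) hgc.1
  have hgcne : g c ≠ 0 := norm_pos_iff.1 hgcpos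
  -- the small ball
  have hm1 : ∀ w ∈ sphere c (R / 8), ‖h w‖ ≤ 6 * (b * Λ) := by
    intro w hw
    have h1 := bc_log (r := R) (r' := R / 4) (r1 := R / 8) (B := 2 * (b * Λ)) (by positivity)
      (by linarith) (by linarith) (by positivity) hgcne hh hhc hgh
      (fun z hz => by
        have h2 := (hgb z (ball_subset_closedBall hz)).2
        calc ‖g z‖ ≤ Real.exp (b * Λ) := h2
          _ = Real.exp (2 * (b * Λ)) * Real.exp (-(b * Λ)) := by
            rw [← Real.exp_add]; congr 1; ring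
          _ ≤ Real.exp (2 * (b * Λ)) * ‖g c‖ := by gcongr; exact hgc.1)
      (sphere_subset_closedBall hw)
    refine h1.trans ?_
    have e1 : 2 * (2 * (b * Λ) + 1) * (R / 8) / (R / 4 - R / 8) = 2 * (2 * (b * Λ) + 1) := by
      have : R / 4 - R / 8 = R / 8 := by ring
      rw [this, mul_div_assoc, div_self (by positivity), mul_one]
    rw [e1]
    linarith
  have hm2 : ∀ w ∈ sphere c (3 * R / 4), ‖h w‖ ≤ 6 * ((B + 2) * Λ) := by
    intro w hw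
    have h1 := bc_log (r := R) (r' := R) (r1 := 3 * R / 4) (B := B * Λ + b * Λ) (by positivity)
      (by linarith) le_rfl (by positivity) hgcne hh hhc hgh
      (fun z hz => by
        have h2 := hgB z hz
        calc ‖g z‖ ≤ Real.exp (B * Λ) := h2
          _ = Real.exp (B * Λ + b * Λ) * Real.exp (-(b * Λ)) := by
            rw [← Real.exp_add]; congr 1; ring
          _ ≤ Real.exp (B * Λ + b * Λ) * ‖g c‖ := by gcongr; exact hgc.1)
      (sphere_subset_closedBall hw)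
    refine h1.trans ?_
    have e1 : 2 * (B * Λ + b * Λ + 1) * (3 * R / 4) / (R - 3 * R / 4) =
        6 * (B * Λ + b * Λ + 1) := by
      have : R - 3 * R / 4 = R / 4 := by ring
      rw [this]
      field_simp
      ring
    rw [e1]
    have : b * Λ ≤ 1 * Λ := by gcongr
    nlinarith
  have hz' : ‖z - c‖ ≤ R / 2 := by rwa [mem_closedBall, dist_eq_norm] at hz
  have hcb := circle_bound (f := h) (c := c) (z := z) (r := R / 2) (s0 := R / 8)
    (s := 3 * R / 4) (R := R) (m := 6 * (b * Λ)) (M := 6 * ((B + 2) * Λ))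
    (by positivity) (by positivity) (by positivity) (by linarith) (by linarith) (by linarith)
    hh hm1 hm2 hz' K
  have e2 : R / 2 / (R / 8) = 4 := by field_simp; norm_num
  have e3 : R / 2 / (3 * R / 4) = 2 / 3 := by field_simp; norm_num
  rw [e2, e3] at hcb
  have hsum : ∑ n ∈ Finset.range K, (4 : ℝ) ^ n ≤ 4 ^ K := by
    have h1 := geom_sum_eq (show (4 : ℝ) ≠ 1 by norm_num) K
    rw [h1]
    have : (0 : ℝ) ≤ 4 ^ K := by positivity
    rw [div_le_iff₀ (by norm_num)]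
    linarith
  have hhz : ‖h z‖ ≤ a / 2 * Λ := by
    refine hcb.trans ?_
    have h1 : 6 * (b * Λ) * ∑ n ∈ Finset.range K, (4 : ℝ) ^ n ≤ a / 4 * Λ := by
      calc 6 * (b * Λ) * ∑ n ∈ Finset.range K, (4 : ℝ) ^ n ≤ 6 * (b * Λ) * 4 ^ K := by gcongr
        _ = b * (6 * 4 ^ K) * Λ := by ring
        _ ≤ a / 4 * Λ := by gcongr
    have h2 : 6 * ((B + 2) * Λ) * (2 / 3) ^ K / (1 - 2 / 3) ≤ a / 4 * Λ := by
      calc 6 * ((B + 2) * Λ) * (2 / 3) ^ K / (1 - 2 / 3) =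
            (2 / 3) ^ K * (18 * (B + 2)) * Λ := by ring
        _ ≤ a / 4 * Λ := by gcongr
    linarith
  have hzb : z ∈ ball c R := by
    rw [mem_ball, dist_eq_norm]; linarith
  have hre := abs_le.1 ((Complex.abs_re_le_norm (h z)).trans hhz)
  rw [hgh z hzb, norm_mul, Complex.norm_exp]
  constructor
  · calc Real.exp (-(a * Λ)) ≤ Real.exp (-(b * Λ)) * Real.exp (-(a / 2 * Λ)) := by
          rw [← Real.exp_add]
          apply Real.exp_le_exp.2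
          have : b * Λ ≤ a / 4 * Λ := by gcongr
          nlinarith
      _ ≤ ‖g c‖ * Real.exp (h z).re := by
          gcongr
          · exact hgc.1
          · exact hre.1
  · calc ‖g c‖ * Real.exp (h z).re ≤ Real.exp (b * Λ) * Real.exp (a / 2 * Λ) := by
          gcongr
          · exact hgc.2
          · exact hre.2
      _ ≤ Real.exp (a * Λ) := by
          rw [← Real.exp_add]
          apply Real.exp_le_exp.2
          have : b * Λ ≤ a / 4 * Λ := by gcongr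
          nlinarith

/-- a chain of steps -/
lemma chainLog {B : ℝ} (hB : 0 ≤ B) (N : ℕ) : ∀ a : ℝ, 0 < a → ∃ b : ℝ, 0 < b ∧ ∃ Λ0 : ℝ,
    ∀ Λ : ℝ, Λ0 ≤ Λ → ∀ (R : ℝ) (g : ℂ → ℂ) (c : ℕ → ℂ), 0 < R →
      (∀ j ≤ N, AnalyticOnNhd ℂ g (ball (c j) R)) →
      (∀ j ≤ N, ∀ z ∈ ball (c j) R, g z ≠ 0) →
      (∀ j ≤ N, ∀ z ∈ ball (c j) R, ‖g z‖ ≤ Real.exp (B * Λ)) →
      (∀ j < N, ‖c (j + 1) - c j‖ ≤ R / 4) →
      (∀ z ∈ closedBall (c 0) (R / 4), Real.exp (-(b * Λ)) ≤ ‖g z‖ ∧ ‖g z‖ ≤ Real.exp (b * Λ)) →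
      ∀ j ≤ N, ∀ z ∈ closedBall (c j) (R / 2),
        Real.exp (-(a * Λ)) ≤ ‖g z‖ ∧ ‖g z‖ ≤ Real.exp (a * Λ) := by
  induction N with
  | zero =>
    intro a ha
    obtain ⟨b, hb, Λ0, h⟩ := stepLog ha hB
    refine ⟨b, hb, Λ0, fun Λ hΛ R g c hR h1 h2 h3 _ h5 j hj => ?_⟩
    have : j = 0 := by omega
    subst this
    exact h Λ hΛ R g (c 0) hR (h1 0 le_rfl) (h2 0 le_rfl) (h3 0 le_rfl) h5
  | succ N ih =>
    intro a ha
    obtain ⟨b1, hb1, Λ1, hs⟩ := stepLog ha hB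
    obtain ⟨b, hb, Λ2, hi⟩ := ih (min a b1) (lt_min ha hb1)
    refine ⟨b, hb, max (max Λ1 Λ2) 0, fun Λ hΛ R g c hR h1 h2 h3 h4 h5 j hj => ?_⟩
    have hΛ1 : Λ1 ≤ Λ := (le_max_left _ _).trans ((le_max_left _ _).trans hΛ)
    have hΛ2 : Λ2 ≤ Λ := (le_max_right _ _).trans ((le_max_left _ _).trans hΛ)
    have hΛ0 : 0 ≤ Λ := (le_max_right _ _).trans hΛ
    have hi' := hi Λ hΛ2 R g c hR (fun j hj => h1 j (by omega)) (fun j hj => h2 j (by omega))
      (fun j hj => h3 j (by omega)) (fun j hj => h4 j (by omega)) h5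
    have hmono : ∀ a' : ℝ, min a b1 ≤ a' → ∀ z : ℂ,
        (Real.exp (-(min a b1 * Λ)) ≤ ‖g z‖ ∧ ‖g z‖ ≤ Real.exp (min a b1 * Λ)) →
        Real.exp (-(a' * Λ)) ≤ ‖g z‖ ∧ ‖g z‖ ≤ Real.exp (a' * Λ) := by
      intro a' ha' z hz
      have : min a b1 * Λ ≤ a' * Λ := by gcongr
      exact ⟨(Real.exp_le_exp.2 (by linarith)).trans hz.1, hz.2.trans (Real.exp_le_exp.2 this)⟩
    rcases Nat.lt_or_ge j (N + 1) with hj' | hj'
    · intro z hz
      exact hmono a (min_le_left _ _) z (hi' j (by omega) z hz)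
    · have hjN : j = N + 1 := by omega
      subst hjN
      refine hs Λ hΛ1 R g (c (N + 1)) hR (h1 _ le_rfl) (h2 _ le_rfl) (h3 _ le_rfl) fun z hz => ?_
      refine hmono b1 (min_le_right _ _) z (hi' N le_rfl z ?_)
      rw [mem_closedBall, dist_eq_norm] at hz ⊢
      calc ‖z - c N‖ = ‖(z - c (N + 1)) + (c (N + 1) - c N)‖ := by congr 1; ring
        _ ≤ ‖z - c (N + 1)‖ + ‖c (N + 1) - c N‖ := norm_add_le _ _
        _ ≤ R / 4 + R / 4 := add_le_add hz (h4 N (by omega))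
        _ = R / 2 := by ring

/-- one step: a function of moderate growth that is small on a disc is small on a larger one -/
lemma stepSmall {a : ℝ} (ha : 0 < a) : ∃ b : ℝ, 0 < b ∧ ∃ a' : ℝ, 0 < a' ∧ ∃ Λ0 : ℝ,
    ∀ Λ : ℝ, Λ0 ≤ Λ → ∀ (R : ℝ) (F : ℂ → ℂ) (c : ℂ), 0 < R → DifferentiableOn ℂ F (ball c R) →
      (∀ z ∈ ball c R, ‖F z‖ ≤ Real.exp (b * Λ)) →
      (∀ z ∈ closedBall c (R / 4), ‖F z‖ ≤ Real.exp (-(a * Λ))) →
      ∀ z ∈ closedBall c (R / 2), ‖F z‖ ≤ Real.exp (-(a' * Λ)) := by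
  refine ⟨a / 12, by positivity, a / 24, by positivity, 144 / a, ?_⟩
  intro Λ hΛ R F c hR hF hB hs z hz
  have haΛ : 144 ≤ a * Λ := by
    rw [div_le_iff₀ ha] at hΛ; linarith
  have hΛ0 : 0 < Λ := by
    by_contra hcon
    push Not at hcon
    nlinarith
  set K : ℕ := ⌈a / 2 * Λ⌉₊ with hK
  have hK1 : a / 2 * Λ ≤ K := Nat.le_ceil _
  have hK2 : (K : ℝ) ≤ a / 2 * Λ + 1 := (Nat.ceil_lt_add_one (by positivity)).le
  have hz' : ‖z - c‖ ≤ R / 2 := by rwa [mem_closedBall, dist_eq_norm] at hz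
  have hcb := circle_bound (f := F) (c := c) (z := z) (r := R / 2) (s0 := R / 4)
    (s := 3 * R / 4) (R := R) (m := Real.exp (-(a * Λ))) (M := Real.exp (a / 12 * Λ))
    (by positivity) (by positivity) (by positivity) (by linarith) (by linarith) (by linarith)
    hF (fun w hw => hs w (sphere_subset_closedBall hw))
    (fun w hw => hB w (by
      rw [mem_sphere, dist_eq_norm] at hw
      rw [mem_ball, dist_eq_norm]; linarith)) hz' K
  have e2 : R / 2 / (R / 4) = 2 := by field_simp; norm_num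
  have e3 : R / 2 / (3 * R / 4) = 2 / 3 := by field_simp; norm_num
  rw [e2, e3] at hcb
  have hsum : ∑ n ∈ Finset.range K, (2 : ℝ) ^ n ≤ Real.exp (a / 2 * Λ + 1) := by
    have h1 := geom_sum_eq (show (2 : ℝ) ≠ 1 by norm_num) K
    rw [h1]
    have h2 : (2 : ℝ) ^ K ≤ Real.exp K := by
      have h3 : (2 : ℝ) ≤ Real.exp 1 := by
        have h3 : (2.7182818283 : ℝ) ≤ Real.exp 1 := Real.exp_one_gt_d9.le
        linarith
      calc (2 : ℝ) ^ K ≤ (Real.exp 1) ^ K := by gcongr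
        _ = Real.exp K := by rw [← Real.exp_nat_mul, mul_one]
    have h4 : Real.exp K ≤ Real.exp (a / 2 * Λ + 1) := Real.exp_le_exp.2 hK2
    have : (2 : ℝ) - 1 = 1 := by norm_num
    rw [this, div_one]
    linarith
  have h23 : (2 / 3 : ℝ) ^ K ≤ Real.exp (-(a / 6 * Λ)) := by
    have h1 : (2 / 3 : ℝ) ≤ Real.exp (-(1 / 3)) := by
      have := Real.add_one_le_exp (-(1 / 3) : ℝ)
      linarith
    calc (2 / 3 : ℝ) ^ K ≤ (Real.exp (-(1 / 3))) ^ K := by gcongr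
      _ = Real.exp (K * -(1 / 3)) := by rw [← Real.exp_nat_mul]
      _ ≤ Real.exp (-(a / 6 * Λ)) := Real.exp_le_exp.2 (by linarith)
  refine hcb.trans ?_
  have t1 : Real.exp (-(a * Λ)) * ∑ n ∈ Finset.range K, (2 : ℝ) ^ n ≤
      Real.exp (-(a * Λ)) * Real.exp (a / 2 * Λ + 1) := by gcongr
  have t2 : Real.exp (-(a * Λ)) * Real.exp (a / 2 * Λ + 1) ≤ Real.exp (-(a / 12 * Λ)) := by
    rw [← Real.exp_add]
    exact Real.exp_le_exp.2 (by nlinarith)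
  have t3 : Real.exp (a / 12 * Λ) * (2 / 3) ^ K / (1 - 2 / 3) ≤ 3 * Real.exp (-(a / 12 * Λ)) := by
    calc Real.exp (a / 12 * Λ) * (2 / 3) ^ K / (1 - 2 / 3)
        = 3 * (Real.exp (a / 12 * Λ) * (2 / 3) ^ K) := by ring
      _ ≤ 3 * (Real.exp (a / 12 * Λ) * Real.exp (-(a / 6 * Λ))) := by gcongr
      _ = 3 * Real.exp (-(a / 12 * Λ)) := by
          rw [← Real.exp_add]; congr 2; ring
  have t4 : 4 * Real.exp (-(a / 12 * Λ)) ≤ Real.exp (-(a / 24 * Λ)) := by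
    have h1 : Real.exp (-(a / 24 * Λ)) = Real.exp (-(a / 12 * Λ)) * Real.exp (a / 24 * Λ) := by
      rw [← Real.exp_add]; congr 1; ring
    have h2 : (4 : ℝ) ≤ Real.exp (a / 24 * Λ) := by
      have := Real.add_one_le_exp (a / 24 * Λ)
      linarith
    rw [h1, mul_comm]
    gcongr
  linarith

/-- a chain of steps -/
lemma chainSmall (N : ℕ) : ∀ a : ℝ, 0 < a → ∃ b : ℝ, 0 < b ∧ ∃ a' : ℝ, 0 < a' ∧ ∃ Λ0 : ℝ,
    ∀ Λ : ℝ, Λ0 ≤ Λ → ∀ (R : ℝ) (F : ℂ → ℂ) (c : ℕ → ℂ), 0 < R →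
      (∀ j ≤ N, DifferentiableOn ℂ F (ball (c j) R)) →
      (∀ j ≤ N, ∀ z ∈ ball (c j) R, ‖F z‖ ≤ Real.exp (b * Λ)) →
      (∀ j < N, ‖c (j + 1) - c j‖ ≤ R / 4) →
      (∀ z ∈ closedBall (c 0) (R / 4), ‖F z‖ ≤ Real.exp (-(a * Λ))) →
      ∀ z ∈ closedBall (c N) (R / 2), ‖F z‖ ≤ Real.exp (-(a' * Λ)) := by
  induction N with
  | zero =>
    intro a ha
    obtain ⟨b, hb, a', ha', Λ0, h⟩ := stepSmall ha
    exact ⟨b, hb, a', ha', Λ0, fun Λ hΛ R F c hR h1 h2 _ h4 =>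
      h Λ hΛ R F (c 0) hR (h1 0 le_rfl) (h2 0 le_rfl) h4⟩
  | succ N ih =>
    intro a ha
    obtain ⟨b1, hb1, a1, ha1, Λ1, hs⟩ := stepSmall ha
    obtain ⟨b2, hb2, a2, ha2, Λ2, hi⟩ := ih a1 ha1
    refine ⟨min b1 b2, lt_min hb1 hb2, a2, ha2, max (max Λ1 Λ2) 0,
      fun Λ hΛ R F c hR h1 h2 h3 h4 => ?_⟩
    have hΛ1 : Λ1 ≤ Λ := (le_max_left _ _).trans ((le_max_left _ _).trans hΛ)
    have hΛ2 : Λ2 ≤ Λ := (le_max_right _ _).trans ((le_max_left _ _).trans hΛ)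
    have hΛ0 : 0 ≤ Λ := (le_max_right _ _).trans hΛ
    have hm : ∀ b' : ℝ, min b1 b2 ≤ b' → Real.exp (min b1 b2 * Λ) ≤ Real.exp (b' * Λ) :=
      fun b' hb' => Real.exp_le_exp.2 (by gcongr)
    refine hi Λ hΛ2 R F (fun j => c (j + 1)) hR (fun j hj => h1 (j + 1) (by omega))
      (fun j hj z hz => (h2 (j + 1) (by omega) z hz).trans (hm b2 (min_le_right _ _)))
      (fun j hj => h3 (j + 1) (by omega)) fun z hz => ?_
    refine hs Λ hΛ1 R F (c 0) hR (h1 0 (by omega))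
      (fun z hz => (h2 0 (by omega) z hz).trans (hm b1 (min_le_left _ _))) h4 z ?_
    rw [mem_closedBall, dist_eq_norm] at hz ⊢
    calc ‖z - c 0‖ = ‖(z - c (0 + 1)) + (c (0 + 1) - c 0)‖ := by congr 1; ring
      _ ≤ ‖z - c (0 + 1)‖ + ‖c (0 + 1) - c 0‖ := norm_add_le _ _
      _ ≤ R / 4 + R / 4 := add_le_add hz (h3 0 (by omega))
      _ = R / 2 := by ring

end Pool.Agent.X284.AZ
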