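import Pool.Agent.X284.AZ.Chain
import Pool.Agent.H31R2.DH.BackZeta

/-!
Few zeros of zeta near a path to the line `Re s = 1` imply small values along the path.
-/

set_option autoImplicit false

open Complex Metric Set Filter Topology

namespace Pool.Agent.X284.AZ

open DH31 H370 H370.Loc

/-- extraction of the zeros in a set -/
lemma extract_set {f : ℂ → ℂ} {K A : Set ℂ} {c : ℂ} {n : ℝ} (hK : IsPreconnected K)
    (hf : AnalyticOnNhd ℂ f K) (hcK : c ∈ K) (hc : f c ≠ 0) (hAK : A ⊆ K)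
    (hn : ∀ S : Finset ℂ, (∀ z ∈ S, z ∈ A ∧ f z = 0) → ∑ z ∈ S, (mult f z : ℝ) ≤ n) :
    ∃ (s : Multiset ℂ) (g : ℂ → ℂ), (∀ ρ ∈ s, ρ ∈ A ∧ f ρ = 0) ∧
      AnalyticOnNhd ℂ g K ∧ (∀ z, f z = Pf s z * g z) ∧ (∀ z ∈ A, g z ≠ 0) ∧
      (Multiset.card s : ℝ) ≤ n := by
  classical
  let Q : ℕ → Prop := fun n => ∃ (s : Multiset ℂ) (g : ℂ → ℂ), Multiset.card s = n ∧
    (∀ ρ ∈ s, ρ ∈ A) ∧ AnalyticOnNhd ℂ g K ∧ (∀ z, f z = Pf s z * g z)
  have hzero : ∀ (s : Multiset ℂ) (g : ℂ → ℂ), (∀ z, f z = Pf s z * g z) → ∀ ρ ∈ s, f ρ = 0 := by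
    intro s g hfg ρ hρ
    rw [hfg ρ]
    have : Pf s ρ = 0 := by
      obtain ⟨t, rfl⟩ := Multiset.exists_cons_of_mem hρ
      rw [Pf_cons, sub_self, zero_mul]
    rw [this, zero_mul]
  have hcard : ∀ (s : Multiset ℂ) (g : ℂ → ℂ), (∀ ρ ∈ s, ρ ∈ A) →
      AnalyticOnNhd ℂ g K → (∀ z, f z = Pf s z * g z) → (Multiset.card s : ℝ) ≤ n := by
    intro s g hs hg hfg
    refine le_trans ?_ (hn s.toFinset fun z hz =>
      ⟨hs z (Multiset.mem_toFinset.1 hz), hzero s g hfg z (Multiset.mem_toFinset.1 hz)⟩)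
    have h1 : Multiset.card s = ∑ z ∈ s.toFinset, s.count z := (Multiset.toFinset_sum_count_eq s).symm
    rw [h1]
    push_cast
    refine Finset.sum_le_sum fun z hz => ?_
    have hz' := hAK (hs z (Multiset.mem_toFinset.1 hz))
    exact_mod_cast count_le_mult (hf z hz') (order_ne_top hK hf hcK hc hz') (hg z hz') hfg
  have hQ0 : Q 0 := ⟨0, f, by simp, by simp, hf, fun z => by rw [Pf_zero, one_mul]⟩
  by_contra hcon
  have hstep : ∀ n, Q n → Q (n + 1) := by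
    rintro n ⟨s, g, hn, hs, hg, hfg⟩
    by_cases hz : ∀ z ∈ A, g z ≠ 0
    · exfalso
      exact hcon ⟨s, g, fun ρ hρ => ⟨hs ρ hρ, hzero s g hfg ρ hρ⟩, hg, hfg, hz, hcard s g hs hg hfg⟩
    · push Not at hz
      obtain ⟨ρ, hρ, hgρ⟩ := hz
      refine ⟨ρ ::ₘ s, dslope g ρ, by rw [Multiset.card_cons, hn], ?_,
        analytic_dslope hg (hg ρ (hAK hρ)), ?_⟩
      · intro x hx
        rw [Multiset.mem_cons] at hx
        rcases hx with rfl | hx
        · exact hρ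
        · exact hs x hx
      · intro z
        have h1 := sub_smul_dslope g ρ z
        rw [hgρ, sub_zero, smul_eq_mul] at h1
        rw [hfg z, Pf_cons, ← h1]
        ring
  have hall : ∀ n, Q n := fun n => Nat.rec hQ0 hstep n
  obtain ⟨m, hm⟩ := exists_nat_gt n
  obtain ⟨s, g, h1, h2, h3, h4⟩ := hall m
  have := hcard s g h2 h3 h4
  rw [h1] at this
  linarith

lemma pow_le_exp_of {x n Λ η : ℝ} {k : ℕ} (hx : 1 ≤ x) (hk : (k : ℝ) ≤ n) (hn : n ≤ η * Λ) :
    x ^ k ≤ Real.exp (η * Real.log x * Λ) := by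
  have hlog : 0 ≤ Real.log x := Real.log_nonneg hx
  rw [← Real.rpow_natCast, Real.rpow_def_of_pos (by linarith)]
  apply Real.exp_le_exp.2
  have : (k : ℝ) ≤ η * Λ := hk.trans hn
  calc Real.log x * k ≤ Real.log x * (η * Λ) := by gcongr
    _ = η * Real.log x * Λ := by ring

/-- few zeros near a path to the line `Re s = 1` imply small values along the path -/
theorem backPath {r L a : ℝ} (hr : 0 < r) (hr1 : r ≤ 1 / 28) (hL : 0 ≤ L) (ha : 0 < a) (N : ℕ) :
    ∃ η : ℝ, 0 < η ∧ ∃ T0 : ℝ, ∀ T : ℝ, T0 ≤ T → ∀ (p : ℝ → ℂ) (c : ℕ → ℂ),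
      (∀ x ∈ Icc (0 : ℝ) 1, 1 / 2 ≤ (p x).re ∧ 2 ≤ (p x).im ∧ ‖p x‖ ≤ T + L + 3) →
      (∀ x ∈ Icc (0 : ℝ) 1, ∀ y ∈ Icc (0 : ℝ) 1, ‖p x - p y‖ ≤ L) →
      (∀ j ≤ N, ∃ x ∈ Icc (0 : ℝ) 1, ‖c j - p x‖ ≤ r) →
      (∀ j < N, ‖c (j + 1) - c j‖ ≤ r / 2) → 1 + r ≤ (c 0).re →
      (∀ S : Finset ℂ, (∀ z ∈ S, (∃ x ∈ Icc (0 : ℝ) 1, ‖z - p x‖ ≤ 5 * r) ∧ riemannZeta z = 0) →
        ∑ z ∈ S, (mult riemannZeta z : ℝ) ≤ η * Real.log T) →
      ∀ j ≤ N, ∀ z ∈ closedBall (c j) r, ‖riemannZeta z‖ ≤ T ^ a := by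
  obtain ⟨A0, hA01, hA0⟩ := zeta_bounds (a := 1 + r / 2) (by linarith)
  obtain ⟨b, hb, Λ0, hchain⟩ := chainLog (B := 3) (by norm_num) N (a / 2) (by positivity)
  set W : ℝ := max (2 / r) (L + 3) with hW
  have hWr : 2 / r ≤ W := le_max_left _ _
  have hWL : L + 3 ≤ W := le_max_right _ _
  have hW1 : 1 ≤ W := by linarith
  have hlogW : 0 ≤ Real.log W := Real.log_nonneg hW1
  have hlogA : 0 ≤ Real.log A0 := Real.log_nonneg hA01
  set b' : ℝ := min b (min a 1) with hb'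
  have hb'0 : 0 < b' := lt_min hb (lt_min ha one_pos)
  have hb'b : b' ≤ b := min_le_left _ _
  have hb'a : b' ≤ a := (min_le_right _ _).trans (min_le_left _ _)
  have hb'1 : b' ≤ 1 := (min_le_right _ _).trans (min_le_right _ _)
  set η : ℝ := b' / 2 / (Real.log W + 1) with hη
  have hη0 : 0 < η := by positivity
  have hηW : η * Real.log W ≤ b' / 2 := by
    have : η * (Real.log W + 1) = b' / 2 := by rw [hη]; field_simp
    nlinarith
  refine ⟨η, hη0, max (max 2 (Real.exp Λ0)) (max (Real.exp (2 * Real.log A0 / b')) (2 * L + 100)), ?_⟩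
  intro T hT p c hp hdiam hcp hstep hc0 hcount
  have hT2 : 2 ≤ T := (le_max_left _ _).trans ((le_max_left _ _).trans hT)
  have hTΛ0 : Real.exp Λ0 ≤ T := (le_max_right _ _).trans ((le_max_left _ _).trans hT)
  have hTA : Real.exp (2 * Real.log A0 / b') ≤ T :=
    (le_max_left _ _).trans ((le_max_right _ _).trans hT)
  have hTL : 2 * L + 100 ≤ T := (le_max_right _ _).trans ((le_max_right _ _).trans hT)
  have hTpos : 0 < T := by linarith
  set Λ := Real.log T with hΛ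
  have hΛ0 : Λ0 ≤ Λ := by rw [hΛ, Real.le_log_iff_exp_le hTpos]; exact hTΛ0
  have hΛA : 2 * Real.log A0 / b' ≤ Λ := by rw [hΛ, Real.le_log_iff_exp_le hTpos]; exact hTA
  have hΛpos : 0 ≤ Λ := Real.log_nonneg (by linarith)
  have hAΛ : Real.log A0 ≤ b' / 2 * Λ := by
    rw [div_le_iff₀ hb'0] at hΛA; linarith
  have hA0exp : A0 ≤ Real.exp (b' / 2 * Λ) := by
    rw [← Real.log_le_iff_le_exp (by linarith)]; exact hAΛ
  -- the half plane
  set K : Set ℂ := {s : ℂ | 0 < s.im} with hK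
  have hKpre : IsPreconnected K := (convex_halfSpace_im_gt 0).isPreconnected
  set A : Set ℂ := {z : ℂ | ∃ x ∈ Icc (0 : ℝ) 1, ‖z - p x‖ ≤ 5 * r} with hA
  have him : ∀ z w : ℂ, ∀ d : ℝ, ‖z - w‖ ≤ d → w.im - d ≤ z.im ∧ w.re - d ≤ z.re ∧ ‖z‖ ≤ ‖w‖ + d := by
    intro z w d h
    have h1 := abs_le.1 ((Complex.abs_im_le_norm (z - w)).trans h)
    have h2 := abs_le.1 ((Complex.abs_re_le_norm (z - w)).trans h)
    rw [Complex.sub_im] at h1
    rw [Complex.sub_re] at h2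
    refine ⟨by linarith [h1.1], by linarith [h2.1], ?_⟩
    calc ‖z‖ = ‖(z - w) + w‖ := by congr 1; ring
      _ ≤ ‖z - w‖ + ‖w‖ := norm_add_le _ _
      _ ≤ ‖w‖ + d := by linarith
  have hAK : A ⊆ K := by
    rintro z ⟨x, hx, hz⟩
    have h1 := (him z (p x) _ hz).1
    have h2 := (hp x hx).2.1
    show 0 < z.im
    linarith
  have hc0K : c 0 ∈ K := by
    obtain ⟨x, hx, h⟩ := hcp 0 (Nat.zero_le _)
    have h1 := (him _ _ _ h).1
    have h2 := (hp x hx).2.1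
    show 0 < (c 0).im
    linarith
  have hc0ne : riemannZeta (c 0) ≠ 0 := riemannZeta_ne_zero_of_one_le_re (by linarith)
  obtain ⟨s, g, hs, hg, hfg, hg0, hcard⟩ := extract_set (f := riemannZeta) (A := A) hKpre
    (fun z hz => zeta_analyticAt hz) hc0K hc0ne hAK hcount
  set k := Multiset.card s with hk
  -- the neighbourhood of the path
  set P : Set ℂ := p '' Icc (0 : ℝ) 1 with hP
  set U : Set ℂ := thickening (6 * r) P with hU
  have hUcl : ∀ z ∈ closure U, ∃ x ∈ Icc (0 : ℝ) 1, ‖z - p x‖ ≤ 7 * r := by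
    intro z hz
    have h1 : z ∈ cthickening (6 * r) P := closure_thickening_subset_cthickening _ _ hz
    have h2 : cthickening (6 * r) P ⊆ thickening (7 * r) P :=
      cthickening_subset_thickening' (by positivity) (by linarith) _
    obtain ⟨w, ⟨x, hx, rfl⟩, hw⟩ := mem_thickening_iff.1 (h2 h1)
    exact ⟨x, hx, by rw [← dist_eq_norm]; exact hw.le⟩
  have hUbd : Bornology.IsBounded U := by
    refine Bornology.IsBounded.thickening ?_
    refine (isBounded_iff_forall_norm_le.2 ⟨T + L + 3, ?_⟩)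
    rintro _ ⟨x, hx, rfl⟩
    exact (hp x hx).2.2
  have hζ : ∀ z ∈ closure U, ‖riemannZeta z‖ ≤ T ^ 2 ∧ 0 < z.im := by
    intro z hz
    obtain ⟨x, hx, h⟩ := hUcl z hz
    obtain ⟨h1, h2, h3⟩ := him _ _ _ h
    obtain ⟨g1, g2, g3⟩ := hp x hx
    refine ⟨(Pool.Agent.H388LH.zeta_growth (by linarith) (by linarith)).trans ?_, by linarith⟩
    nlinarith
  have hsr : ∀ z ∉ U, ∀ ρ ∈ s, r ≤ ‖z - ρ‖ := by
    intro z hz ρ hρ
    obtain ⟨x, hx, h⟩ := (hs ρ hρ).1
    by_contra hcon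
    push Not at hcon
    apply hz
    rw [hU, mem_thickening_iff]
    refine ⟨p x, ⟨x, hx, rfl⟩, ?_⟩
    rw [dist_eq_norm]
    calc ‖z - p x‖ = ‖(z - ρ) + (ρ - p x)‖ := by congr 1; ring
      _ ≤ ‖z - ρ‖ + ‖ρ - p x‖ := norm_add_le _ _
      _ < r + 5 * r := add_lt_add_of_lt_of_le hcon h
      _ = 6 * r := by ring
  have hr1' : r ≤ 1 := by linarith
  have hgU : ∀ z ∈ closure U, ‖g z‖ ≤ Real.exp (3 * Λ) := by
    intro z hz
    refine Complex.norm_le_of_forall_mem_frontier_norm_le hUbd ?_ ?_ hz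
    · apply DifferentiableOn.diffContOnCl
      exact fun w hw => (hg w (hζ w hw).2).differentiableAt.differentiableWithinAt
    · intro w hw
      have hwU : w ∉ U := by
        have : frontier U = closure U \ U := isOpen_thickening.frontier_eq
        rw [this] at hw
        exact hw.2
      have h1 : r ^ k ≤ ‖Pf s w‖ := Pf_norm_ge hr.le (hsr w hwU)
      have h2 := (hζ w (frontier_subset_closure hw)).1
      rw [hfg w, norm_mul] at h2
      have h3 : r ^ k * ‖g w‖ ≤ T ^ 2 := le_trans (by gcongr) h2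
      have h4 : ‖g w‖ ≤ T ^ 2 * (1 / r) ^ k := by
        rw [one_div, inv_pow, ← div_eq_mul_inv, le_div_iff₀ (by positivity)]
        linarith
      refine h4.trans ?_
      have h5 : (1 / r) ^ k ≤ W ^ k := by
        have : 1 / r ≤ W := by
          refine le_trans ?_ hWr
          rw [div_le_div_iff_of_pos_right hr]; norm_num
        gcongr
      have h6 := pow_le_exp_of (k := k) hW1 hcard le_rfl
      have h7 : T ^ 2 = Real.exp (2 * Λ) := by
        rw [hΛ, mul_comm, Real.exp_mul, Real.exp_log hTpos]; norm_num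
      calc T ^ 2 * (1 / r) ^ k ≤ Real.exp (2 * Λ) * Real.exp (η * Real.log W * Λ) := by
            rw [h7]; gcongr; exact h5.trans h6
        _ = Real.exp (2 * Λ + η * Real.log W * Λ) := (Real.exp_add _ _).symm
        _ ≤ Real.exp (3 * Λ) := by
            apply Real.exp_le_exp.2
            have : η * Real.log W * Λ ≤ 1 * Λ := by
              gcongr
              linarith
            linarith
  -- the discs
  have hdisc : ∀ j ≤ N, ∀ z ∈ ball (c j) (2 * r), z ∈ A ∧ z ∈ closure U := by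
    intro j hj z hz
    obtain ⟨x, hx, h⟩ := hcp j hj
    rw [mem_ball, dist_eq_norm] at hz
    have h1 : ‖z - p x‖ ≤ 3 * r := by
      calc ‖z - p x‖ = ‖(z - c j) + (c j - p x)‖ := by congr 1; ring
        _ ≤ ‖z - c j‖ + ‖c j - p x‖ := norm_add_le _ _
        _ ≤ 3 * r := by linarith
    refine ⟨⟨x, hx, by linarith⟩, subset_closure ?_⟩
    rw [hU, mem_thickening_iff]
    exact ⟨p x, ⟨x, hx, rfl⟩, by rw [dist_eq_norm]; linarith⟩
  have hρle : ∀ ρ ∈ s, ρ.re < 1 := by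
    intro ρ hρ
    by_contra hcon
    push Not at hcon
    exact riemannZeta_ne_zero_of_one_le_re hcon (hs ρ hρ).2
  have hPfup : ∀ z x, x ∈ Icc (0 : ℝ) 1 → ‖z - p x‖ ≤ 2 * r → ‖Pf s z‖ ≤ W ^ k := by
    intro z x hx hz
    refine Pf_norm_le fun ρ hρ => ?_
    obtain ⟨y, hy, h⟩ := (hs ρ hρ).1
    calc ‖z - ρ‖ = ‖(z - p x) + (p x - p y) - (ρ - p y)‖ := by congr 1; ring
      _ ≤ ‖(z - p x) + (p x - p y)‖ + ‖ρ - p y‖ := norm_sub_le _ _
      _ ≤ ‖z - p x‖ + ‖p x - p y‖ + ‖ρ - p y‖ := by gcongr; exact norm_add_le _ _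
      _ ≤ 2 * r + L + 5 * r := by gcongr; exact hdiam x hx y hy
      _ ≤ W := by linarith
  have hWk := pow_le_exp_of (k := k) hW1 hcard le_rfl
  have hWk2 : W ^ k ≤ Real.exp (b' / 2 * Λ) := by
    refine hWk.trans (Real.exp_le_exp.2 ?_)
    gcongr
  have hWkpos : 0 < W ^ k := by positivity
  have hstart : ∀ z ∈ closedBall (c 0) (2 * r / 4),
      Real.exp (-(b * Λ)) ≤ ‖g z‖ ∧ ‖g z‖ ≤ Real.exp (b * Λ) := by
    intro z hz
    have hzr : 1 + r / 2 ≤ z.re := by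
      rw [mem_closedBall, dist_eq_norm] at hz
      have := (him _ _ _ hz).2.1
      linarith
    obtain ⟨x, hx, h⟩ := hcp 0 (Nat.zero_le _)
    have hzx : ‖z - p x‖ ≤ 2 * r := by
      rw [mem_closedBall, dist_eq_norm] at hz
      calc ‖z - p x‖ = ‖(z - c 0) + (c 0 - p x)‖ := by congr 1; ring
        _ ≤ ‖z - c 0‖ + ‖c 0 - p x‖ := norm_add_le _ _
        _ ≤ 2 * r := by linarith
    obtain ⟨hz1, hz2⟩ := hA0 z hzr
    have hlow : (r / 2) ^ k ≤ ‖Pf s z‖ := by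
      refine Pf_norm_ge (by positivity) fun ρ hρ => ?_
      have h1 := (Complex.abs_re_le_norm (z - ρ))
      rw [Complex.sub_re] at h1
      have h2 := hρle ρ hρ
      have h3 := le_abs_self (z.re - ρ.re)
      linarith
    have hup := hPfup z x hx hzx
    have hgz : ‖riemannZeta z‖ = ‖Pf s z‖ * ‖g z‖ := by rw [hfg z, norm_mul]
    rw [hgz] at hz1 hz2
    have hbb : b' * Λ ≤ b * Λ := by gcongr
    constructor
    · -- lower bound
      have h1 : 1 / A0 ≤ W ^ k * ‖g z‖ := hz2.trans (by gcongr)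
      have h2 : 1 ≤ A0 * W ^ k * ‖g z‖ := by
        rw [div_le_iff₀ (by linarith)] at h1; linarith
      have h3 : A0 * W ^ k ≤ Real.exp (b * Λ) := by
        calc A0 * W ^ k ≤ Real.exp (b' / 2 * Λ) * Real.exp (b' / 2 * Λ) := by gcongr
          _ = Real.exp (b' * Λ) := by rw [← Real.exp_add]; congr 1; ring
          _ ≤ Real.exp (b * Λ) := Real.exp_le_exp.2 hbb
      have h4 : 1 ≤ Real.exp (b * Λ) * ‖g z‖ := h2.trans (by gcongr)
      rw [Real.exp_neg, inv_le_iff_one_le_mul₀ (Real.exp_pos _)]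
      linarith
    · have h1 : (r / 2) ^ k * ‖g z‖ ≤ A0 := le_trans (by gcongr) hz1
      have h2 : ‖g z‖ ≤ A0 * (2 / r) ^ k := by
        rw [← inv_div, inv_pow, ← div_eq_mul_inv, le_div_iff₀ (by positivity)]
        linarith
      calc ‖g z‖ ≤ A0 * (2 / r) ^ k := h2
        _ ≤ A0 * W ^ k := by gcongr
        _ ≤ Real.exp (b' / 2 * Λ) * Real.exp (b' / 2 * Λ) := by gcongr
        _ = Real.exp (b' * Λ) := by rw [← Real.exp_add]; congr 1; ring
        _ ≤ Real.exp (b * Λ) := Real.exp_le_exp.2 hbb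
  have hfin := hchain Λ hΛ0 (2 * r) g c (by positivity)
    (fun j hj z hz => hg z (hAK (hdisc j hj z hz).1))
    (fun j hj z hz => hg0 z (hdisc j hj z hz).1)
    (fun j hj z hz => hgU z (hdisc j hj z hz).2)
    (fun j hj => (hstep j hj).trans (by linarith)) hstart
  intro j hj z hz
  have hz' : z ∈ closedBall (c j) (2 * r / 2) := by
    rwa [show 2 * r / 2 = r by ring]
  have h1 := (hfin j hj z hz').2
  obtain ⟨x, hx, h⟩ := hcp j hj
  have hzx : ‖z - p x‖ ≤ 2 * r := by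
    rw [mem_closedBall, dist_eq_norm] at hz
    calc ‖z - p x‖ = ‖(z - c j) + (c j - p x)‖ := by congr 1; ring
      _ ≤ ‖z - c j‖ + ‖c j - p x‖ := norm_add_le _ _
      _ ≤ 2 * r := by linarith
  have h2 := hPfup z x hx hzx
  rw [hfg z, norm_mul]
  calc ‖Pf s z‖ * ‖g z‖ ≤ Real.exp (b' / 2 * Λ) * Real.exp (a / 2 * Λ) := by
        gcongr
        exact h2.trans hWk2
    _ = Real.exp (b' / 2 * Λ + a / 2 * Λ) := (Real.exp_add _ _).symm
    _ ≤ Real.exp (a * Λ) := by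
        apply Real.exp_le_exp.2
        have : b' / 2 * Λ ≤ a / 2 * Λ := by gcongr
        linarith
    _ = T ^ a := by rw [Real.rpow_def_of_pos hTpos, mul_comm]

end Pool.Agent.X284.AZ
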